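import Mathlib

/-!
Chromatic schemes: definitions.
-/

set_option autoImplicit false

namespace Pool.Agent.H.MP_4cad9a_co

/-- `H` admits a chromatic `p`-scheme: there are a proper colouring `Q` of `H` with colours in
`Fin p`, `p` distinct vertices `v i` (the basis) with pairwise distinct colours, and for each pair
`i < j` a path `P i j` of `H` from `v i` to `v j` (a link) all of whose vertices have one of two
colours, such that `P i j` and `P k l` are vertex disjoint whenever `i, j, k, l` are pairwise
distinct. -/
def HasChromaticScheme {W : Type} (H : SimpleGraph W) (p : ℕ) : Prop :=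
  ∃ (Q : H.Coloring (Fin p)) (v : Fin p → W)
    (P : ∀ i j : Fin p, i < j → H.Walk (v i) (v j)),
    Function.Injective v ∧
    (∀ i j (h : i < j), (P i j h).IsPath) ∧
    (∀ i j k l (h : i < j) (h' : k < l), i ≠ k → i ≠ l → j ≠ k → j ≠ l →
      ∀ x, x ∈ (P i j h).support → x ∉ (P k l h').support) ∧
    Function.Injective (fun i => Q (v i)) ∧
    (∀ i j (h : i < j), ∃ α β : Fin p, ∀ x ∈ (P i j h).support, Q x = α ∨ Q x = β)

end Pool.Agent.H.MP_4cad9a_co
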