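import Mathlib
import Pool.Agent.H.MP_4cad9a_co.Defs

/-!
Complements of triangle-free graphs with property (B) have no chromatic `p`-scheme
(job 45, for `MP_4cad9a_co`).
-/

namespace Pool.Agent.H.MP_4cad9a_co

open Finset

/-- The first two steps of a bicoloured path between differently coloured vertices. -/
theorem first_steps {W : Type} (G : SimpleGraph W) {p : ℕ} (Q : G.Coloring (Fin p)) {x y : W}
    (w : G.Walk x y) (hw : w.IsPath) (hxy : Q x ≠ Q y)
    (hbi : ∃ α β : Fin p, ∀ z ∈ w.support, Q z = α ∨ Q z = β) :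
    ∃ x₁, G.Adj x x₁ ∧ Q x₁ = Q y ∧ (x₁ = y ∨ ∃ x₂, G.Adj x₁ x₂ ∧ Q x₂ = Q x ∧ x₂ ≠ x) := by
  obtain ⟨α, β, hαβ⟩ := hbi
  have key : ∀ z ∈ w.support, Q z = Q x ∨ Q z = Q y := by
    intro z hz
    have hz' := hαβ z hz
    have hx' := hαβ x w.start_mem_support
    have hy' := hαβ y w.end_mem_support
    rcases hx' with hx' | hx' <;> rcases hy' with hy' | hy' <;> rcases hz' with hz' | hz' <;>
      simp_all
  cases w with
  | nil => exact absurd rfl hxy
  | @cons _ x₁ _ h₁ w₁ =>
    have hx₁ : Q x₁ = Q y := by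
      rcases key x₁ (by simp) with h | h
      · exact absurd h.symm (Q.valid h₁)
      · exact h
    refine ⟨x₁, h₁, hx₁, ?_⟩
    cases w₁ with
    | nil => exact Or.inl rfl
    | @cons _ x₂ _ h₂ w₂ =>
      right
      refine ⟨x₂, h₂, ?_, ?_⟩
      · rcases key x₂ (by simp) with h | h
        · exact h
        · exact absurd (hx₁.trans h.symm) (Q.valid h₂)
      · rintro rfl
        rw [SimpleGraph.Walk.cons_isPath_iff] at hw
        exact hw.2 (by simp)

theorem reduction {V : Type} [Fintype V] [DecidableEq V] (H : SimpleGraph V)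
    (hH : H.CliqueFree 3) (m : ℕ) (hm0 : 0 < m) (hm : 6 * m ≤ Fintype.card V)
    (hB : ∀ a b : Fin m → V, Function.Injective a → Function.Injective b → (∀ i j, a i ≠ b j) →
      ∃ i j, H.Adj (a i) (a j) ∧ H.Adj (b i) (b j))
    (p : ℕ) (hp : (Hᶜ).chromaticNumber = p) (G' : (Hᶜ).Subgraph) :
    ¬ HasChromaticScheme G'.coe p := by
  classical
  rintro ⟨Q, v, P, hv, hpath, -, hqinj, hbi⟩
  -- (0) the lower bound for `p`
  have h2p : Fintype.card V ≤ 2 * p := by
    have hcol : (Hᶜ).Colorable p :=
      SimpleGraph.chromaticNumber_le_iff_colorable.mp (le_of_eq hp)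
    obtain ⟨C⟩ := hcol
    have := Finset.card_le_mul_card_image_of_maps_to (s := (univ : Finset V))
      (t := (univ : Finset (Fin p))) (f := fun x => C x) (fun _ _ => mem_univ _) 2 ?_
    · simpa using this
    · intro c _
      by_contra hc
      push Not at hc
      obtain ⟨x, y, z, hx, hy, hz, hxy, hxz, hyz⟩ := Finset.two_lt_card_iff.mp hc
      simp only [mem_filter, mem_univ, true_and] at hx hy hz
      have hadj : ∀ s t : V, s ≠ t → C s = C t → H.Adj s t := by
        intro s t hst hCst
        by_contra hn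
        exact C.valid ((SimpleGraph.compl_adj _ _ _).mpr ⟨hst, hn⟩) hCst
      refine hH {x, y, z} ?_
      rw [SimpleGraph.is3Clique_triple_iff]
      exact ⟨hadj x y hxy (hx.trans hy.symm), hadj x z hxz (hx.trans hz.symm),
        hadj y z hyz (hy.trans hz.symm)⟩
  -- step facts
  have hstep : ∀ i j : Fin p, i < j → ∃ x₁, G'.coe.Adj (v i) x₁ ∧ Q x₁ = Q (v j) ∧
      (x₁ = v j ∨ ∃ x₂, G'.coe.Adj x₁ x₂ ∧ Q x₂ = Q (v i) ∧ x₂ ≠ v i) := by
    intro i j hij
    exact first_steps _ Q (P i j hij) (hpath i j hij) (fun h => (ne_of_lt hij) (hqinj h))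
      (hbi i j hij)
  have hnadj : ∀ s t : G'.verts, G'.coe.Adj s t → ¬ H.Adj (s : V) (t : V) := by
    intro s t hst hH'
    have h1 : (Hᶜ).Adj (s : V) (t : V) := G'.adj_sub (SimpleGraph.Subgraph.coe_adj G' s t ▸ hst)
    exact ((SimpleGraph.compl_adj _ _ _).mp h1).2 hH'
  -- fibres
  let F : Fin p → Finset G'.verts := fun i => univ.filter fun x => Q x = Q (v i)
  have hvF : ∀ i, v i ∈ F i := fun i => by simp [F]
  have hFpos : ∀ i, 0 < (F i).card := fun i => Finset.card_pos.mpr ⟨v i, hvF i⟩
  have hsum : ∑ i, (F i).card ≤ Fintype.card V := by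
    rw [← Finset.card_biUnion]
    · refine le_trans (Finset.card_le_univ _) ?_
      exact Fintype.card_subtype_le _
    · intro i _ j _ hij
      rw [Function.onFun, Finset.disjoint_left]
      intro x hx hx'
      simp only [F, mem_filter, mem_univ, true_and] at hx hx'
      exact hij (hqinj (hx.symm.trans hx'))
  let S1 : Finset (Fin p) := univ.filter fun i => (F i).card = 1
  let S2 : Finset (Fin p) := univ.filter fun i => (F i).card = 2
  let S3 : Finset (Fin p) := univ.filter fun i => 3 ≤ (F i).card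
  have hsumS : ∑ i, (1 + (if i ∈ S2 then 1 else 0) + (if i ∈ S3 then 2 else 0))
      ≤ ∑ i, (F i).card := by
    refine Finset.sum_le_sum fun i _ => ?_
    have := hFpos i
    simp only [S2, S3, mem_filter, mem_univ, true_and]
    split_ifs <;> omega
  have hcount : p + S2.card + 2 * S3.card ≤ Fintype.card V := by
    refine le_trans (le_of_eq ?_) (hsumS.trans hsum)
    rw [Finset.sum_add_distrib, Finset.sum_add_distrib]
    simp [mul_comm]
  have hpart : S1.card + S2.card + S3.card = p := by
    have : ∑ i : Fin p, ((if i ∈ S1 then 1 else 0) + (if i ∈ S2 then 1 else 0)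
        + (if i ∈ S3 then 1 else 0)) = ∑ i : Fin p, 1 := by
      refine Finset.sum_congr rfl fun i _ => ?_
      have := hFpos i
      simp only [S1, S2, S3, mem_filter, mem_univ, true_and]
      split_ifs <;> omega
    rw [Finset.sum_add_distrib, Finset.sum_add_distrib] at this
    simpa using this
  -- an injection from `Fin m` into a large finset
  have hemb : ∀ {α : Type} (S : Finset α), m ≤ S.card →
      ∃ e : Fin m → α, Function.Injective e ∧ ∀ i, e i ∈ S := by
    intro α S hS
    obtain ⟨T, hTS, hT⟩ := Finset.exists_subset_card_eq hS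
    let e := (T.equivFin.symm : Fin T.card ≃ T)
    refine ⟨fun i => (e (Fin.cast hT.symm i) : α), ?_, fun i => hTS (e (Fin.cast hT.symm i)).2⟩
    intro i j hij
    have := e.injective (Subtype.ext hij)
    simpa using this
  -- (2) few singleton classes
  have hS1 : S1.card < m := by
    by_contra hlt
    push Not at hlt
    obtain ⟨e, he, heS⟩ := hemb S1 hlt
    let a : Fin m → V := fun i => (v (e i) : V)
    have ha : Function.Injective a := fun i j hij => he (hv (Subtype.ext hij))
    have hrest : m ≤ ((univ : Finset V) \ univ.image a).card := by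
      have h1 : (univ.image a).card ≤ m := by
        refine le_trans Finset.card_image_le ?_
        simp
      have h2 := Finset.le_card_sdiff (univ.image a) (univ : Finset V)
      rw [Finset.card_univ] at h2
      omega
    obtain ⟨b, hb, hbS⟩ := hemb _ hrest
    obtain ⟨i, j, hij, -⟩ := hB a b ha hb (by
      intro i j hij
      have := hbS j
      simp only [mem_sdiff, mem_image, mem_univ, true_and, not_exists] at this
      exact this i hij)
    have hone : ∀ i, ∀ x, Q x = Q (v (e i)) → x = v (e i) := by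
      intro i x hx
      have h1 : (F (e i)).card = 1 := by simpa [S1] using heS i
      obtain ⟨z, hz⟩ := Finset.card_eq_one.mp h1
      have h2 : x ∈ F (e i) := by simp [F, hx]
      have h3 := hvF (e i)
      rw [hz, mem_singleton] at h2 h3
      rw [h2, h3]
    have hne : e i ≠ e j := by
      intro h
      have : i = j := he h
      subst this
      exact H.loopless.irrefl _ hij
    rcases lt_or_gt_of_ne hne with hlt' | hlt'
    · obtain ⟨x₁, h1, h2, -⟩ := hstep _ _ hlt'
      rw [hone j x₁ h2] at h1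
      exact hnadj _ _ h1 hij
    · obtain ⟨x₁, h1, h2, -⟩ := hstep _ _ hlt'
      rw [hone i x₁ h2] at h1
      exact hnadj _ _ h1 hij.symm
  -- (3) many classes of size two
  have hS2 : m ≤ S2.card := by omega
  -- (4)
  obtain ⟨e, he, heS⟩ := hemb S2 hS2
  have htwo : ∀ i, ∃ w : G'.verts, w ≠ v (e i) ∧ Q w = Q (v (e i)) ∧
      ∀ x, Q x = Q (v (e i)) → x = v (e i) ∨ x = w := by
    intro i
    have h1 : (F (e i)).card = 2 := by simpa [S2] using heS i
    obtain ⟨x, y, hxy, hF⟩ := Finset.card_eq_two.mp h1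
    have h3 := hvF (e i)
    have hall : ∀ z, Q z = Q (v (e i)) ↔ (z = x ∨ z = y) := by
      intro z
      have : z ∈ F (e i) ↔ (z = x ∨ z = y) := by rw [hF]; simp
      rw [← this]; simp [F]
    rw [hF, mem_insert, mem_singleton] at h3
    rcases h3 with h3 | h3
    · refine ⟨y, ?_, (hall y).mpr (Or.inr rfl), fun z hz => ?_⟩
      · rw [h3]; exact hxy.symm
      · rw [h3]; exact (hall z).mp hz
    · refine ⟨x, ?_, (hall x).mpr (Or.inl rfl), fun z hz => ?_⟩
      · rw [h3]; exact hxy
      · rw [h3]; exact ((hall z).mp hz).symm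
  choose w hw1 hw2 hw3 using htwo
  have hadj : ∀ i j : Fin m, e i < e j →
      ¬ (H.Adj (v (e i) : V) (v (e j) : V) ∧ H.Adj (w i : V) (w j : V)) := by
    rintro i j hlt ⟨hA, hA'⟩
    obtain ⟨x₁, h1, h2, h3⟩ := hstep _ _ hlt
    rcases hw3 j x₁ h2 with h4 | h4
    · subst h4
      exact hnadj _ _ h1 hA
    · subst h4
      rcases h3 with h3 | ⟨x₂, h5, h6, h7⟩
      · exact hw1 j h3
      · rcases hw3 i x₂ h6 with h8 | h8
        · exact h7 h8
        · subst h8
          exact hnadj _ _ h5 hA'.symm
  obtain ⟨i, j, hij, hij'⟩ := hB (fun i => (v (e i) : V)) (fun i => (w i : V))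
    (fun i j hij => he (hv (Subtype.ext hij)))
    (fun i j hij => by
      have h1 : w i = w j := Subtype.ext hij
      have h2 : Q (v (e i)) = Q (v (e j)) := by rw [← hw2 i, ← hw2 j, h1]
      exact he (hqinj h2))
    (fun i j hij => by
      have h1 : v (e i) = w j := Subtype.ext hij
      have h2 : Q (v (e i)) = Q (v (e j)) := by rw [← hw2 j, h1]
      have h3 : e i = e j := hqinj h2
      exact hw1 j (by rw [← h1, h3]))
  have hne : e i ≠ e j := by
    intro h
    have : i = j := he h
    subst this
    exact H.loopless.irrefl _ hij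
  rcases lt_or_gt_of_ne hne with hlt' | hlt'
  · exact hadj i j hlt' ⟨hij, hij'⟩
  · exact hadj j i hlt' ⟨hij.symm, hij'.symm⟩

end Pool.Agent.H.MP_4cad9a_co
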