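import Pool.Agent.H.MP_4cad9a_co.PropB
import Pool.Agent.H.MP_4cad9a_co.Reduction

/-!
Numerical conditions and the final theorem.
-/

set_option autoImplicit false

namespace Pool.Agent.H.MP_4cad9a_co

open Finset

theorem pow_self_le (m : ℕ) : m ^ m ≤ m.factorial * 4 ^ m := by
  have h1 := Real.pow_div_factorial_le_exp (m : ℝ) (Nat.cast_nonneg m) m
  have h2 : Real.exp (m : ℝ) ≤ 4 ^ m := by
    have h3 : Real.exp (m : ℝ) = Real.exp 1 ^ m := by rw [← Real.exp_nat_mul]; simp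
    rw [h3]
    apply pow_le_pow_left₀ (Real.exp_pos _).le
    have := Real.exp_one_lt_d9
    linarith
  have h4 : (0:ℝ) < m.factorial := by exact_mod_cast Nat.factorial_pos m
  have h5 : (m:ℝ) ^ m ≤ m.factorial * 4 ^ m := by
    rw [div_le_iff₀ h4] at h1
    calc (m:ℝ) ^ m ≤ Real.exp m * m.factorial := h1
      _ ≤ 4 ^ m * m.factorial := mul_le_mul_of_nonneg_right h2 h4.le
      _ = _ := by ring
  exact_mod_cast h5

theorem pa (a b c : ℕ) (h : a + b = c) : (2:ℕ) ^ a * 2 ^ b = 2 ^ c := by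
  subst h; exact (pow_add 2 a b).symm

theorem pm (a n c : ℕ) (h : a * n = c) : ((2:ℕ) ^ a) ^ n = 2 ^ c := by
  subst h; exact (pow_mul 2 a n).symm

theorem par (a b c : ℕ) (h : a + b = c) : (2:ℝ) ^ a * 2 ^ b = 2 ^ c := by
  subst h; exact (pow_add 2 a b).symm

theorem pmr (a n c : ℕ) (h : a * n = c) : ((2:ℝ) ^ a) ^ n = 2 ^ c := by
  subst h; exact (pow_mul 2 a n).symm

/-- abstract form of the count of permutations -/
theorem perm_num_aux (T A B C F E : ℕ) (hF : E ^ (2 * (32 * T)) * F ≤ C)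
    (h4 : (32 * T) ^ (32 * T) ≤ (32 * T).factorial * 4 ^ (32 * T))
    (h5 : A ^ (4 * T) * B ^ (2 * (32 * T)) * 4 ^ (32 * T) <
      (32 * T) ^ (32 * T) * E ^ (2 * (32 * T))) (hFpos : 0 < F) :
    A ^ (4 * T) * B ^ (2 * (32 * T)) * F < (32 * T).factorial * C := by
  generalize A ^ (4 * T) = a at *
  generalize B ^ (2 * (32 * T)) = b at *
  generalize E ^ (2 * (32 * T)) = e at *
  generalize (4:ℕ) ^ (32 * T) = f at *
  generalize (32 * T) ^ (32 * T) = g at *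
  generalize (32 * T).factorial = m at *
  have h7 : a * b * f < m * e * f := by
    calc _ < g * e := h5
      _ ≤ (m * f) * e := Nat.mul_le_mul_right _ h4
      _ = _ := by ring
  have h8 : a * b < m * e := lt_of_mul_lt_mul_right h7 (Nat.zero_le _)
  calc a * b * F < (m * e) * F := Nat.mul_lt_mul_of_pos_right h8 hFpos
    _ = m * (e * F) := by ring
    _ ≤ _ := Nat.mul_le_mul_left _ hF

theorem perm_num (T : ℕ) (hT : T = 2 ^ 3192) :
    (2 ^ 2560) ^ (4 * T) * (T * (2 ^ 640) ^ 2) ^ (2 * (32 * T)) *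
      (2 ^ 2560 * 2 ^ 640 - 2 * (32 * T)).factorial <
      (32 * T).factorial * (2 ^ 2560 * 2 ^ 640).factorial := by
  have hTpos : 0 < T := by rw [hT]; positivity
  have hTk : T * (2 ^ 640) ^ 2 = 2 ^ 4472 := by
    rw [hT, pm 640 2 1280 (by norm_num)]
    exact pa 3192 1280 4472 (by norm_num)
  have hn : (2:ℕ) ^ 2560 * 2 ^ 640 = 2 ^ 3200 := pa 2560 640 3200 (by norm_num)
  have hn2 : (2:ℕ) ^ 3200 = 256 * T := by
    rw [hT, show (256:ℕ) = 2 ^ 8 by norm_num]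
    exact (pa 8 3192 3200 (by norm_num)).symm
  have hn3 : (2:ℕ) ^ 3199 = 128 * T := by
    rw [hT, show (128:ℕ) = 2 ^ 7 by norm_num]
    exact (pa 7 3192 3199 (by norm_num)).symm
  have hm2 : 32 * T = 2 ^ 3197 := by
    rw [hT, show (32:ℕ) = 2 ^ 5 by norm_num]
    exact (pa 5 3192 3197 (by norm_num))
  rw [hn, hTk]
  -- the exponent comparison
  have h5 : (2 ^ 2560) ^ (4 * T) * (2 ^ 4472) ^ (2 * (32 * T)) * 4 ^ (32 * T) <
      (32 * T) ^ (32 * T) * (2 ^ 3199) ^ (2 * (32 * T)) := by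
    have e4 : (32 * T) ^ (32 * T) = 2 ^ (102304 * T) := by
      have : (32 * T) ^ (32 * T) = (2 ^ 3197) ^ (32 * T) := by rw [← hm2]
      rw [this]
      clear this hT hTk hn2 hn3 hm2
      exact pm 3197 (32 * T) (102304 * T) (by ring)
    clear hT hTk hn2 hn3 hm2
    have e1 : ((2:ℕ) ^ 2560) ^ (4 * T) = 2 ^ (10240 * T) :=
      pm 2560 (4 * T) (10240 * T) (by ring)
    have e2 : ((2:ℕ) ^ 4472) ^ (2 * (32 * T)) = 2 ^ (286208 * T) :=
      pm 4472 (2 * (32 * T)) (286208 * T) (by ring)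
    have e3 : (4:ℕ) ^ (32 * T) = 2 ^ (64 * T) := by
      rw [show (4:ℕ) = 2 ^ 2 by norm_num]
      exact pm 2 (32 * T) (64 * T) (by ring)
    have e5 : ((2:ℕ) ^ 3199) ^ (2 * (32 * T)) = 2 ^ (204736 * T) :=
      pm 3199 (2 * (32 * T)) (204736 * T) (by ring)
    rw [e1, e2, e3, e4, e5, pa (10240 * T) (286208 * T) (296448 * T) (by ring),
      pa (296448 * T) (64 * T) (296512 * T) (by ring),
      pa (102304 * T) (204736 * T) (307040 * T) (by ring)]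
    apply Nat.pow_lt_pow_right (by norm_num)
    omega
  have h4 := pow_self_le (32 * T)
  have hF : (2 ^ 3199) ^ (2 * (32 * T)) * (2 ^ 3200 - 2 * (32 * T)).factorial ≤
      (2 ^ 3200).factorial := by
    clear h5 h4 hTk hn hT hm2
    revert hn2 hn3
    generalize (2:ℕ) ^ 3200 = N
    generalize (2:ℕ) ^ 3199 = E
    intro hn2 hn3
    have h2 := Nat.factorial_mul_pow_le_factorial (m := N - 2 * (32 * T)) (n := 2 * (32 * T))
    have h3 : N - 2 * (32 * T) + 2 * (32 * T) = N := by omega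
    rw [h3] at h2
    rw [mul_comm]
    refine le_trans (Nat.mul_le_mul_left _ ?_) h2
    apply Nat.pow_le_pow_left
    omega
  exact perm_num_aux T (2 ^ 2560) (2 ^ 4472) _ _ _ hF h4 h5 (Nat.factorial_pos _)

theorem levels_num (I J : ℕ) (h1 : 2 ^ 3192 ≤ 2 ^ 2560 + 2 * 2560 * I)
    (h2 : I * I ≤ 2560 ^ 2 * J + 2 * (2 ^ 640 * 2 ^ 640 * 2 ^ 4612) + 2 * 2 ^ 640 * I) :
    4 * 2 ^ 6328 + 2 * (2 ^ 640 * 2 ^ 640) * 2 ^ 4612 ≤ J := by
  obtain ⟨X, hX⟩ : ∃ X : ℕ, X = 2 ^ 3178 := ⟨_, rfl⟩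
  obtain ⟨Y, hY⟩ : ∃ Y : ℕ, Y = 2 ^ 2560 := ⟨_, rfl⟩
  obtain ⟨Z, hZ⟩ : ∃ Z : ℕ, Z = 2 ^ 6331 := ⟨_, rfl⟩
  obtain ⟨W, hW⟩ : ∃ W : ℕ, W = 2 ^ 5893 := ⟨_, rfl⟩
  obtain ⟨K, hK⟩ : ∃ K : ℕ, K = 2 ^ 641 := ⟨_, rfl⟩
  have e1 : (2:ℕ) ^ 3192 = 16384 * X := by
    rw [hX, show (16384:ℕ) = 2 ^ 14 by norm_num]
    exact (pa 14 3178 3192 (by norm_num)).symm
  have e2 : Y ≤ 8192 * X := by
    have h : 8192 * X = 2 ^ 3191 := by
      rw [hX, show (8192:ℕ) = 2 ^ 13 by norm_num]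
      exact pa 13 3178 3191 (by norm_num)
    exact (hY.le.trans (Nat.pow_le_pow_right (by norm_num) (by norm_num))).trans h.ge
  have two : (2:ℕ) = 2 ^ 1 := by norm_num
  have e3 : 2 * (2 ^ 640 * 2 ^ 640 * 2 ^ 4612) = W := by
    rw [hW, pa 640 640 1280 (by norm_num), pa 1280 4612 5892 (by norm_num)]
    exact (pow_succ' 2 5892).symm
  have e3' : 2 * (2 ^ 640 * 2 ^ 640) * 2 ^ 4612 = W := by
    clear e1 e2 hX hY hZ hK hW two
    revert e3
    generalize (2:ℕ) ^ 640 = a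
    generalize (2:ℕ) ^ 4612 = b
    intro e3
    rw [← e3]; ring
  have e4 : 2 * 2 ^ 640 = K := by rw [hK]; exact (pow_succ' 2 640).symm
  have e5 : X * X = 33554432 * Z := by
    rw [hX, hZ, show (33554432:ℕ) = 2 ^ 25 by norm_num, pa 3178 3178 6356 (by norm_num)]
    exact (pa 25 6331 6356 (by norm_num)).symm
  have e6 : 4 * W ≤ Z := by
    rw [hW, hZ, show (4:ℕ) = 2 ^ 2 by norm_num, pa 2 5893 5895 (by norm_num)]
    exact Nat.pow_le_pow_right (by norm_num) (by norm_num)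
  have e7 : 4 * K ≤ X := by
    rw [hK, hX, show (4:ℕ) = 2 ^ 2 by norm_num, pa 2 641 643 (by norm_num)]
    exact Nat.pow_le_pow_right (by norm_num) (by norm_num)
  have e8 : 2 * (4 * 2 ^ 6328) = Z := by
    rw [hZ, show (4:ℕ) = 2 ^ 2 by norm_num, pa 2 6328 6330 (by norm_num)]
    exact (pow_succ' 2 6330).symm
  rw [e1, ← hY] at h1
  rw [e3, e4] at h2
  rw [e3']
  clear e1 e3 e3' e4 hX hY hZ hW hK two
  generalize (4:ℕ) * 2 ^ 6328 = G at e8 ⊢
  have hI : X ≤ I := by omega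
  have f1 : X * X ≤ I * I := Nat.mul_le_mul hI hI
  have f2 : 4 * (K * I) ≤ I * I := by
    calc 4 * (K * I) = (4 * K) * I := by ring
      _ ≤ I * I := Nat.mul_le_mul_right _ (e7.trans hI)
  have e9 : (2560:ℕ) ^ 2 * J = 6553600 * J := by norm_num
  rw [e9] at h2
  rw [e5] at f1
  generalize I * I = II at *
  generalize K * I = KI at *
  omega

theorem num3 : (4:ℝ) * (2 ^ 640 * 2 ^ 640) * (2 ^ 1536)⁻¹ ≤ 1 / 4 := by
  rw [show (4:ℝ) = 2 ^ 2 by norm_num, par 640 640 1280 (by norm_num),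
    par 2 1280 1282 (by norm_num), ← par 1282 254 1536 (by norm_num)]
  have h1 : (0:ℝ) < 2 ^ 1282 := by positivity
  have h2 : (2:ℝ) ^ 2 ≤ 2 ^ 254 := pow_le_pow_right₀ (by norm_num) (by norm_num)
  generalize (2:ℝ) ^ 1282 = A at *
  generalize (2:ℝ) ^ 254 = B at *
  have h3 : A * (A * B)⁻¹ = B⁻¹ := by
    rw [mul_inv]; field_simp
  rw [h3, inv_eq_one_div]
  exact one_div_le_one_div_of_le (by norm_num) h2

theorem num4a : ((2:ℝ) ^ 2560) ^ 3 * ((2 ^ 1536)⁻¹) ^ 2 = 2 ^ 4608 := by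
  rw [inv_pow, pmr 2560 3 7680 (by norm_num), pmr 1536 2 3072 (by norm_num),
    ← par 4608 3072 7680 (by norm_num)]
  exact mul_inv_cancel_right₀ (by positivity) _

theorem num4b : ((2:ℝ) ^ 2560) ^ 2 * (2 ^ 1536)⁻¹ = 2 ^ 3584 := by
  rw [pmr 2560 2 5120 (by norm_num), ← par 3584 1536 5120 (by norm_num)]
  exact mul_inv_cancel_right₀ (by positivity) _

theorem num4c : 8 * ((2:ℝ) ^ 4608 + 2 ^ 3584) ≤ 2 ^ 4612 := by
  have e3 : (2:ℝ) ^ 3584 ≤ 2 ^ 4608 := pow_le_pow_right₀ (by norm_num) (by norm_num)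
  rw [← par 4 4608 4612 (by norm_num)]
  generalize (2:ℝ) ^ 4608 = A at *
  generalize (2:ℝ) ^ 3584 = B at *
  norm_num
  linarith

theorem num5a : ((2 ^ 1536 : ℝ)⁻¹) ^ 2 / 16 * 2 ^ 6328 = 2 ^ 3252 := by
  rw [inv_pow, pmr 1536 2 3072 (by norm_num), ← par 3252 3076 6328 (by norm_num),
    ← par 4 3072 3076 (by norm_num)]
  have h1 : (0:ℝ) < 2 ^ 3072 := by positivity
  generalize (2:ℝ) ^ 3072 = A at *
  generalize (2:ℝ) ^ 3252 = B at *
  field_simp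
  ring

theorem num5b : 6400 * (2:ℝ) ^ 3192 - 2 ^ 3252 ≤ -3 := by
  rw [← par 60 3192 3252 (by norm_num)]
  have h6 : (1:ℝ) ≤ 2 ^ 3192 := one_le_pow₀ (by norm_num)
  generalize (2:ℝ) ^ 3192 = A at *
  norm_num
  linarith

theorem num5c : (2:ℝ) ^ 2560 * 2 ^ 640 ≤ Real.exp 3200 := by
  rw [par 2560 640 3200 (by norm_num)]
  have h : Real.exp 3200 = Real.exp 1 ^ 3200 := by
    rw [← Real.exp_nat_mul]
    congr 1
    norm_num
  rw [h]
  apply pow_le_pow_left₀ (by norm_num)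
  have := Real.add_one_le_exp (1:ℝ)
  linarith

theorem num5d : Real.exp (-3) ≤ 1 / 8 := by
  have h8 : Real.exp 3 ≥ 8 := by
    have h9 : Real.exp 3 = Real.exp 1 ^ 3 := by rw [← Real.exp_nat_mul]; norm_num
    have h10 : (2:ℝ) ≤ Real.exp 1 := by
      have := Real.add_one_le_exp (1:ℝ)
      linarith
    rw [h9]
    calc (8:ℝ) = 2 ^ 3 := by norm_num
      _ ≤ _ := pow_le_pow_left₀ (by norm_num) h10 3
  rw [Real.exp_neg, inv_eq_one_div]
  exact one_div_le_one_div_of_le (by norm_num) h8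

/-- abstract form of the failure probability -/
theorem num5 (T : ℕ) (N : ℝ) (hN0 : 0 ≤ N) (hN : N ≤ Real.exp 3200) (E : ℝ)
    (hE : 6400 * (T:ℝ) - E ≤ -3) : (N ^ T) ^ 2 * Real.exp (-E) ≤ 1 / 8 := by
  have e2 : (N ^ T) ^ 2 ≤ Real.exp (6400 * T) := by
    calc (N ^ T) ^ 2 ≤ ((Real.exp 3200) ^ T) ^ 2 := by
          apply pow_le_pow_left₀ (by positivity)
          exact pow_le_pow_left₀ hN0 hN T
      _ = Real.exp (6400 * T) := by
          rw [← Real.exp_nat_mul, ← Real.exp_nat_mul]; congr 1; push_cast; ring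
  calc (N ^ T) ^ 2 * Real.exp (-E) ≤ Real.exp (6400 * T) * Real.exp (-E) :=
        mul_le_mul_of_nonneg_right e2 (Real.exp_pos _).le
    _ = Real.exp (6400 * T - E) := by rw [← Real.exp_add]; congr 1
    _ ≤ Real.exp (-3) := Real.exp_le_exp.mpr hE
    _ ≤ 1 / 8 := num5d

theorem exists_HB : ∃ s k T : ℕ, 2 ^ s * k = 256 * T ∧ 0 < T ∧
    ∃ H : SimpleGraph ((Fin s → Bool) × Fin k), H.CliqueFree 3 ∧
      ∀ a b : Fin (32 * T) → (Fin s → Bool) × Fin k,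
        Function.Injective a → Function.Injective b →
        (∀ i j, a i ≠ b j) → ∃ i j, H.Adj (a i) (a j) ∧ H.Adj (b i) (b j) := by
  obtain ⟨T, hT⟩ : ∃ T : ℕ, T = 2 ^ 3192 := ⟨_, rfl⟩
  obtain ⟨s, hs⟩ : ∃ s : ℕ, s = 2560 := ⟨_, rfl⟩
  obtain ⟨k, hk⟩ : ∃ k : ℕ, k = 2 ^ 640 := ⟨_, rfl⟩
  obtain ⟨D, hD⟩ : ∃ D : ℕ, D = 2 ^ 4612 := ⟨_, rfl⟩
  obtain ⟨M, hM⟩ : ∃ M : ℕ, M = 2 ^ 6328 := ⟨_, rfl⟩
  obtain ⟨q, hq⟩ : ∃ q : ℝ, q = (2 ^ 1536)⁻¹ := ⟨_, rfl⟩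
  have hkR : (k : ℝ) = 2 ^ 640 := by rw [hk]; exact Nat.cast_pow 2 640
  have hDR : (D : ℝ) = 2 ^ 4612 := by rw [hD]; exact Nat.cast_pow 2 4612
  have hMR : (M : ℝ) = 2 ^ 6328 := by rw [hM]; exact Nat.cast_pow 2 6328
  have hTR : (T : ℝ) = 2 ^ 3192 := by rw [hT]; exact Nat.cast_pow 2 3192
  have hTpos : 0 < T := by rw [hT]; positivity
  have hDpos : 0 < D := by rw [hD]; positivity
  have c1 : (2 ^ s) ^ (4 * T) * (T * k ^ 2) ^ (2 * (32 * T)) *
      (2 ^ s * k - 2 * (32 * T)).factorial < (32 * T).factorial * (2 ^ s * k).factorial := by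
    have := perm_num T hT
    rw [← hk, ← hs] at this
    exact this
  have c2 : ∀ I J : ℕ, T ≤ 2 ^ s + 2 * s * I → I * I ≤ s ^ 2 * J + 2 * (k * k * D) + 2 * k * I →
      4 * M + 2 * (k * k) * D ≤ J := by
    intro I J h1 h2
    rw [hT, hs] at h1
    rw [hk, hD, hs] at h2
    rw [hk, hD, hM]
    exact levels_num I J h1 h2
  have c3 : 0 ≤ q := by rw [hq]; positivity
  have c4 : q ≤ 1 := by rw [hq]; exact inv_le_one_of_one_le₀ (one_le_pow₀ (by norm_num))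
  have c5 : q * (4 * (k * k) : ℕ) ≤ 1 / 4 := by
    push_cast
    rw [mul_comm, hkR, hq]
    exact num3
  have c6 : 8 * ((2 ^ s : ℝ) ^ 3 * q ^ 2 + (2 ^ s : ℝ) ^ 2 * q) ≤ D := by
    rw [hDR, hq, hs, num4a, num4b]
    exact num4c
  have c7 : (((2 ^ s * k : ℕ) : ℝ) ^ T) ^ 2 * Real.exp (-(q ^ 2 / 16 * M)) ≤ 1 / 8 := by
    apply num5 T _ (Nat.cast_nonneg _)
    · push_cast
      rw [hkR, hs]
      exact num5c
    · rw [hTR, hMR, hq, num5a]
      exact num5b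
  have c8 : 2 ^ s * k = 256 * T := by
    rw [hs, hk, hT, show (256:ℕ) = 2 ^ 8 by norm_num, pa 2560 640 3200 (by norm_num)]
    exact (pa 8 3192 3200 (by norm_num)).symm
  have c9 : 0 < s := by omega
  clear hT hs hk hD hM hq hkR hDR hMR hTR
  exact ⟨s, k, T, c8, hTpos, exists_H c9 hTpos hDpos c1 c2 c3 c4 c5 c6 c7⟩

/-- there is a `p`-chromatic graph none of whose subgraphs admits a chromatic `p`-scheme -/
theorem main : ∃ (p : ℕ) (V : Type) (_ : Fintype V) (G : SimpleGraph V),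
    G.chromaticNumber = p ∧ ∀ G' : G.Subgraph, ¬ HasChromaticScheme G'.coe p := by
  classical
  obtain ⟨s, k, T, hsk, hT, H, hH, hB⟩ := exists_HB
  have hfin : (Hᶜ).chromaticNumber ≠ ⊤ := by
    rw [SimpleGraph.chromaticNumber_ne_top_iff_exists]
    exact ⟨_, SimpleGraph.colorable_of_fintype _⟩
  obtain ⟨p, hp⟩ := ENat.ne_top_iff_exists.mp hfin
  refine ⟨p, _, inferInstance, Hᶜ, hp.symm, ?_⟩
  intro G'
  refine reduction H hH (32 * T) (by positivity) ?_ hB p hp.symm G'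
  have hc : Fintype.card ((Fin s → Bool) × Fin k) = 2 ^ s * k := by
    rw [Fintype.card_prod, Fintype.card_fin]
    simp
  rw [hc, hsk]
  omega

end Pool.Agent.H.MP_4cad9a_co
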