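import Pool.Agent.H.MP_4cad9a_co.Spread

/-!
Existence of two good random graphs.
-/

set_option autoImplicit false

namespace Pool.Agent.H.MP_4cad9a_co

open Finset

open Classical in
/-- first moment of the number of pairs with a common neighbour -/
theorem ex_cnum {s : ℕ} {q : ℝ} (h0 : 0 ≤ q) (h1 : q ≤ 1) :
    ex q (Eall s) (fun F => (cnum F : ℝ)) ≤ (2 ^ s : ℝ) ^ 3 * q ^ 2 + (2 ^ s : ℝ) ^ 2 * q := by
  have hcard : Fintype.card (Fin s → Bool) = 2 ^ s := by simp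
  have hbound : ∀ F ⊆ Eall s, (cnum F : ℝ) ≤ ∑ p ∈ (univ : Finset ((Fin s → Bool) × (Fin s → Bool))),
      ∑ z ∈ (univ : Finset (Fin s → Bool)),
      if s(p.1, z) ∈ F ∧ s(p.2, z) ∈ F then (1:ℝ) else 0 := by
    intro F _
    unfold cnum
    rw [card_filter]
    push_cast
    apply sum_le_sum
    intro p _
    split_ifs with h
    · obtain ⟨z, hz⟩ := h
      refine le_trans ?_ (single_le_sum (f := fun z => if s(p.1, z) ∈ F ∧ s(p.2, z) ∈ F
        then (1:ℝ) else 0) (fun z _ => by split_ifs <;> norm_num) (mem_univ z))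
      rw [if_pos hz]
    · exact sum_nonneg (fun z _ => by split_ifs <;> norm_num)
  refine (ex_mono h0 h1 hbound).trans ?_
  rw [ex_sum]
  have hterm : ∀ p : (Fin s → Bool) × (Fin s → Bool), ∀ z : Fin s → Bool,
      ex q (Eall s) (fun F => if s(p.1, z) ∈ F ∧ s(p.2, z) ∈ F then (1:ℝ) else 0)
        ≤ q ^ 2 + (if p.1 = p.2 then q else 0) := by
    rintro ⟨x, y⟩ z
    simp only
    by_cases hxz : x = z
    · have hz : ex q (Eall s) (fun F => if s(x, z) ∈ F ∧ s(y, z) ∈ F then (1:ℝ) else 0) = 0 := by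
        rw [ex_congr (g := fun _ => 0), ex_const]
        intro F hF
        rw [if_neg]
        rintro ⟨h2, -⟩
        exact mem_Eall.mp (hF h2) hxz
      rw [hz]
      split_ifs <;> positivity
    · by_cases hyz : y = z
      · have hz : ex q (Eall s) (fun F => if s(x, z) ∈ F ∧ s(y, z) ∈ F then (1:ℝ) else 0) = 0 := by
          rw [ex_congr (g := fun _ => 0), ex_const]
          intro F hF
          rw [if_neg]
          rintro ⟨-, h2⟩
          exact mem_Eall.mp (hF h2) hyz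
        rw [hz]
        split_ifs <;> positivity
      · by_cases hxy : x = y
        · subst hxy
          rw [if_pos rfl]
          have : ex q (Eall s) (fun F => if s(x, z) ∈ F ∧ s(x, z) ∈ F then (1:ℝ) else 0) = q := by
            simp only [and_self]
            exact ex_mem (mem_Eall.mpr hxz)
          rw [this]
          nlinarith [sq_nonneg q]
        · rw [if_neg hxy, add_zero]
          apply le_of_eq
          apply ex_mem_mem (mem_Eall.mpr hxz) (mem_Eall.mpr hyz)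
          intro h
          rcases Sym2.eq_iff.mp h with ⟨h3, -⟩ | ⟨h3, -⟩
          · exact hxy h3
          · exact hxz h3
  calc ∑ p ∈ (univ : Finset ((Fin s → Bool) × (Fin s → Bool))), ex q (Eall s)
        (fun F => ∑ z ∈ (univ : Finset (Fin s → Bool)),
          if s(p.1, z) ∈ F ∧ s(p.2, z) ∈ F then (1:ℝ) else 0)
      ≤ ∑ p ∈ (univ : Finset ((Fin s → Bool) × (Fin s → Bool))),
        ∑ z ∈ (univ : Finset (Fin s → Bool)), (q ^ 2 + (if p.1 = p.2 then q else 0)) := by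
        apply sum_le_sum
        intro p _
        rw [ex_sum]
        exact sum_le_sum (fun z _ => hterm p z)
    _ = (2 ^ s : ℝ) ^ 3 * q ^ 2 + (2 ^ s : ℝ) ^ 2 * q := by
        simp only [sum_const, card_univ, hcard, nsmul_eq_mul]
        rw [← mul_sum, sum_add_distrib, sum_const, card_univ, Fintype.card_prod, hcard]
        have hd : ∑ p : (Fin s → Bool) × (Fin s → Bool), (if p.1 = p.2 then q else 0)
            = (2 ^ s : ℝ) * q := by
          rw [Fintype.sum_prod_type]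
          simp only [sum_ite_eq, mem_univ, if_true, sum_const, card_univ, hcard, nsmul_eq_mul]
          push_cast; ring
        rw [hd, nsmul_eq_mul]
        push_cast; ring

open Classical in
/-- Markov -/
theorem ex_cnum_gt {s D₀ : ℕ} {q : ℝ} (h0 : 0 ≤ q) (h1 : q ≤ 1)
    (hD : 8 * ((2 ^ s : ℝ) ^ 3 * q ^ 2 + (2 ^ s : ℝ) ^ 2 * q) ≤ D₀) (hD0 : 0 < D₀) :
    ex q (Eall s) (fun F => if cnum F ≤ D₀ then (0:ℝ) else 1) ≤ 1 / 8 := by
  have h2 : ex q (Eall s) (fun F => (D₀:ℝ) * (if cnum F ≤ D₀ then (0:ℝ) else 1))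
      ≤ ex q (Eall s) (fun F => (cnum F : ℝ)) := by
    apply ex_mono h0 h1
    intro F _
    split_ifs with h
    · simp
    · push Not at h
      rw [mul_one]
      exact_mod_cast h.le
  rw [ex_mul_const] at h2
  have h3 := h2.trans (ex_cnum h0 h1)
  have h4 : (0:ℝ) < D₀ := by exact_mod_cast hD0
  by_contra hcon
  push Not at hcon
  nlinarith

theorem ex_comm {ι : Type} [DecidableEq ι] (q : ℝ) (E E' : Finset ι) (f : Finset ι → Finset ι → ℝ) :
    ex q E (fun A => ex q E' (fun B => f A B)) = ex q E' (fun B => ex q E (fun A => f A B)) := by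
  unfold ex
  simp only [mul_sum]
  rw [sum_comm]
  apply sum_congr rfl
  intro B _
  apply sum_congr rfl
  intro A _
  ring

section families

variable {s t k : ℕ} {V : Type} [Fintype V] [DecidableEq V]

/-- a conflict in the first layer -/
def Conf (F₁ F₂ : Finset (Sym2 (Fin s → Bool))) (P Q : V → Fin s → Bool) (a b : Fin t → V)
    (i j : Fin t) : Prop :=
  (Fp F₁ (P (a i)) (P (a j)) ∧ ¬ codeg F₂ (Q (a i)) (Q (a j))) ∧
    (Fp F₁ (P (b i)) (P (b j)) ∧ ¬ codeg F₂ (Q (b i)) (Q (b j)))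

/-- a family without conflict -/
def BadFam (F₁ F₂ : Finset (Sym2 (Fin s → Bool))) (P Q : V → Fin s → Bool) (a b : Fin t → V) :
    Prop :=
  Function.Injective a ∧ Function.Injective b ∧ Function.Injective (fun i => (P (a i), P (b i))) ∧
    ∀ i j, ¬ Conf F₁ F₂ P Q a b i j

open Classical in
theorem fiber_le {P : V → Fin s → Bool} (hP : ∀ u, #(univ.filter (fun v => P v = u)) ≤ k)
    {a : Fin t → V} (ha : Function.Injective a) (u : Fin s → Bool) :
    #(univ.filter (fun i => P (a i) = u)) ≤ k := by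
  refine le_trans ?_ (hP u)
  apply card_le_card_of_injOn a
  · intro i hi
    rw [mem_coe, mem_filter] at hi
    rw [mem_coe, mem_filter]
    exact ⟨mem_univ _, hi.2⟩
  · exact ha.injOn

open Classical in
theorem card_codeg {Q : V → Fin s → Bool} (hQ : ∀ u, #(univ.filter (fun v => Q v = u)) ≤ k)
    {a : Fin t → V} (ha : Function.Injective a) (F₂ : Finset (Sym2 (Fin s → Bool))) :
    #((univ : Finset (Fin t × Fin t)).filter (fun p => codeg F₂ (Q (a p.1)) (Q (a p.2))))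
      ≤ k * k * cnum F₂ := by
  have h1 : ∀ p ∈ (univ : Finset (Fin t × Fin t)).filter
      (fun p => codeg F₂ (Q (a p.1)) (Q (a p.2))), (Q (a p.1), Q (a p.2)) ∈
      (univ : Finset ((Fin s → Bool) × (Fin s → Bool))).filter (fun p => codeg F₂ p.1 p.2) := by
    intro p hp
    rw [mem_filter] at hp ⊢
    exact ⟨mem_univ _, hp.2⟩
  refine card_le_mul_card_image_of_maps_to h1 (k * k) ?_
  intro q _
  refine le_trans (card_le_card ?_) (card_fiber (x := fun i => Q (a i)) (fiber_le hQ ha) univ q.1 q.2)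
  intro p hp
  rw [mem_filter] at hp
  rw [mem_filter]
  refine ⟨mem_univ _, ?_⟩
  have := hp.2
  rw [← this]; exact ⟨rfl, rfl⟩

open Classical in
theorem ex_badFam (hs : 0 < s) {P Q : V → Fin s → Bool}
    (hP : ∀ u, #(univ.filter (fun v => P v = u)) ≤ k)
    (hQ : ∀ u, #(univ.filter (fun v => Q v = u)) ≤ k) {D₀ M : ℕ}
    (hM : ∀ I J : ℕ, t ≤ 2 ^ s + 2 * s * I → I * I ≤ s ^ 2 * J + 2 * (k * k * D₀) + 2 * k * I →
      4 * M + 2 * (k * k) * D₀ ≤ J)
    {q : ℝ} (h0 : 0 ≤ q) (h1 : q ≤ 1) (hq : q * (4 * (k * k) : ℕ) ≤ 1 / 4)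
    (F₂ : Finset (Sym2 (Fin s → Bool))) (hF₂ : cnum F₂ ≤ D₀) (a b : Fin t → V) :
    ex q (Eall s) (fun F₁ => if cnum F₁ ≤ D₀ ∧ BadFam F₁ F₂ P Q a b then 1 else 0)
      ≤ Real.exp (-(q ^ 2 / 16 * M)) := by
  by_cases hab : Function.Injective a ∧ Function.Injective b ∧
      Function.Injective (fun i => (P (a i), P (b i)))
  · obtain ⟨ha, hb, hinj⟩ := hab
    set PP : Finset (Fin t × Fin t) := univ.filter (fun p => ¬ codeg F₂ (Q (a p.1)) (Q (a p.2)) ∧
      ¬ codeg F₂ (Q (b p.1)) (Q (b p.2))) with hPP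
    have hδ : t * t ≤ #PP + 2 * (k * k * D₀) := by
      have g1 := card_codeg hQ ha F₂
      have g2 := card_codeg hQ hb F₂
      have g3 : (univ : Finset (Fin t × Fin t)) ⊆ PP ∪ (univ.filter
          (fun p => codeg F₂ (Q (a p.1)) (Q (a p.2))) ∪ univ.filter
          (fun p => codeg F₂ (Q (b p.1)) (Q (b p.2)))) := by
        intro p _
        simp only [hPP, mem_union, mem_filter, mem_univ, true_and]
        tauto
      have g4 := (card_le_card g3).trans (card_union_le _ _)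
      have g5 := card_union_le ((univ : Finset (Fin t × Fin t)).filter
          (fun p => codeg F₂ (Q (a p.1)) (Q (a p.2)))) (univ.filter
          (fun p => codeg F₂ (Q (b p.1)) (Q (b p.2))))
      have g6 : k * k * cnum F₂ ≤ k * k * D₀ := Nat.mul_le_mul_left _ hF₂
      have g7 : #(univ : Finset (Fin t × Fin t)) = t * t := by
        rw [card_univ]; simp
      omega
    refine le_trans ?_ (spread hs (fun i => P (a i)) (fun i => P (b i)) hinj (fiber_le hP ha)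
      (fiber_le hP hb) PP hδ hM h0 h1 hq)
    apply ex_mono h0 h1
    intro F₁ _
    by_cases hbad : cnum F₁ ≤ D₀ ∧ BadFam F₁ F₂ P Q a b
    · rw [if_pos hbad, if_pos]
      refine ⟨hbad.1, ?_⟩
      rintro p hp ⟨hc1, hc2⟩
      rw [hPP, mem_filter] at hp
      exact hbad.2.2.2.2 p.1 p.2 ⟨⟨hc1, hp.2.1⟩, ⟨hc2, hp.2.2⟩⟩
    · rw [if_neg hbad]
      split_ifs <;> norm_num
  · rw [ex_congr (g := fun _ => 0), ex_const]
    · exact (Real.exp_pos _).le
    · intro F₁ _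
      rw [if_neg]
      rintro ⟨-, h2⟩
      exact hab ⟨h2.1, h2.2.1, h2.2.2.1⟩

open Classical in
theorem ex_badFam_all (hs : 0 < s) {P Q : V → Fin s → Bool}
    (hP : ∀ u, #(univ.filter (fun v => P v = u)) ≤ k)
    (hQ : ∀ u, #(univ.filter (fun v => Q v = u)) ≤ k) {D₀ M : ℕ}
    (hM : ∀ I J : ℕ, t ≤ 2 ^ s + 2 * s * I → I * I ≤ s ^ 2 * J + 2 * (k * k * D₀) + 2 * k * I →
      4 * M + 2 * (k * k) * D₀ ≤ J)
    {q : ℝ} (h0 : 0 ≤ q) (h1 : q ≤ 1) (hq : q * (4 * (k * k) : ℕ) ≤ 1 / 4)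
    (hfin : ((Fintype.card V : ℝ) ^ t) ^ 2 * Real.exp (-(q ^ 2 / 16 * M)) ≤ 1 / 8)
    (F₂ : Finset (Sym2 (Fin s → Bool))) :
    ex q (Eall s) (fun F₁ => if cnum F₂ ≤ D₀ ∧ cnum F₁ ≤ D₀ ∧
      ∃ a b : Fin t → V, BadFam F₁ F₂ P Q a b then 1 else 0) ≤ 1 / 8 := by
  by_cases hF₂ : cnum F₂ ≤ D₀
  · have hle : ∀ F₁ ⊆ Eall s, (if cnum F₂ ≤ D₀ ∧ cnum F₁ ≤ D₀ ∧
        ∃ a b : Fin t → V, BadFam F₁ F₂ P Q a b then (1:ℝ) else 0) ≤
        ∑ ab ∈ (univ : Finset ((Fin t → V) × (Fin t → V))),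
          if cnum F₁ ≤ D₀ ∧ BadFam F₁ F₂ P Q ab.1 ab.2 then (1:ℝ) else 0 := by
      intro F₁ _
      split_ifs with h
      · obtain ⟨-, hc, a, b, hab⟩ := h
        refine le_trans ?_ (single_le_sum (f := fun ab : (Fin t → V) × (Fin t → V) =>
          if cnum F₁ ≤ D₀ ∧ BadFam F₁ F₂ P Q ab.1 ab.2 then (1:ℝ) else 0)
          (fun ab _ => by split_ifs <;> norm_num) (mem_univ (a, b)))
        rw [if_pos ⟨hc, hab⟩]
      · exact sum_nonneg (fun ab _ => by split_ifs <;> norm_num)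
    refine (ex_mono h0 h1 hle).trans ?_
    rw [ex_sum]
    refine (sum_le_sum (fun ab _ => ex_badFam hs hP hQ hM h0 h1 hq F₂ hF₂ ab.1 ab.2)).trans ?_
    rw [sum_const, card_univ, Fintype.card_prod, Fintype.card_fun, Fintype.card_fin, nsmul_eq_mul]
    refine le_trans (le_of_eq ?_) hfin
    push_cast; ring
  · rw [ex_congr (g := fun _ => 0), ex_const]
    · norm_num
    · intro F₁ _
      rw [if_neg]
      rintro ⟨h2, -⟩
      exact hF₂ h2

open Classical in
/-- existence of two good graphs -/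
theorem exists_graphs (hs : 0 < s) {P Q : V → Fin s → Bool}
    (hP : ∀ u, #(univ.filter (fun v => P v = u)) ≤ k)
    (hQ : ∀ u, #(univ.filter (fun v => Q v = u)) ≤ k) {D₀ M : ℕ} (hD0 : 0 < D₀)
    (hM : ∀ I J : ℕ, t ≤ 2 ^ s + 2 * s * I → I * I ≤ s ^ 2 * J + 2 * (k * k * D₀) + 2 * k * I →
      4 * M + 2 * (k * k) * D₀ ≤ J)
    {q : ℝ} (h0 : 0 ≤ q) (h1 : q ≤ 1) (hq : q * (4 * (k * k) : ℕ) ≤ 1 / 4)
    (hD : 8 * ((2 ^ s : ℝ) ^ 3 * q ^ 2 + (2 ^ s : ℝ) ^ 2 * q) ≤ D₀)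
    (hfin : ((Fintype.card V : ℝ) ^ t) ^ 2 * Real.exp (-(q ^ 2 / 16 * M)) ≤ 1 / 8) :
    ∃ F₁ F₂ : Finset (Sym2 (Fin s → Bool)), F₁ ⊆ Eall s ∧ F₂ ⊆ Eall s ∧
      (∀ a b : Fin t → V, ¬ BadFam F₁ F₂ P Q a b) ∧
      (∀ a b : Fin t → V, ¬ BadFam F₂ F₁ Q P a b) := by
  by_contra hcon
  push Not at hcon
  set A : Finset (Sym2 (Fin s → Bool)) → ℝ := fun F => if cnum F ≤ D₀ then (0:ℝ) else 1 with hA
  set B1 : Finset (Sym2 (Fin s → Bool)) → Finset (Sym2 (Fin s → Bool)) → ℝ := fun F₂ F₁ =>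
    if cnum F₂ ≤ D₀ ∧ cnum F₁ ≤ D₀ ∧ ∃ a b : Fin t → V, BadFam F₁ F₂ P Q a b then 1 else 0 with hB1
  set B2 : Finset (Sym2 (Fin s → Bool)) → Finset (Sym2 (Fin s → Bool)) → ℝ := fun F₁ F₂ =>
    if cnum F₁ ≤ D₀ ∧ cnum F₂ ≤ D₀ ∧ ∃ a b : Fin t → V, BadFam F₂ F₁ Q P a b then 1 else 0 with hB2
  have key : ∀ F₂ ⊆ Eall s, ∀ F₁ ⊆ Eall s, (1:ℝ) ≤ A F₁ + (A F₂ + (B1 F₂ F₁ + B2 F₁ F₂)) := by
    intro F₂ hF₂ F₁ hF₁
    have nA : ∀ F, 0 ≤ A F := fun F => by simp only [hA]; split_ifs <;> norm_num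
    have nB1 : 0 ≤ B1 F₂ F₁ := by simp only [hB1]; split_ifs <;> norm_num
    have nB2 : 0 ≤ B2 F₁ F₂ := by simp only [hB2]; split_ifs <;> norm_num
    by_cases c1 : cnum F₁ ≤ D₀
    · by_cases c2 : cnum F₂ ≤ D₀
      · by_cases c3 : ∃ a b : Fin t → V, BadFam F₁ F₂ P Q a b
        · have : B1 F₂ F₁ = 1 := by simp only [hB1]; rw [if_pos ⟨c2, c1, c3⟩]
          have := nA F₁
          have := nA F₂
          linarith
        · push Not at c3
          obtain ⟨a, b, hab⟩ := hcon F₁ F₂ hF₁ hF₂ c3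
          have : B2 F₁ F₂ = 1 := by simp only [hB2]; rw [if_pos ⟨c1, c2, a, b, hab⟩]
          have := nA F₁
          have := nA F₂
          linarith
      · have : A F₂ = 1 := by simp only [hA]; rw [if_neg c2]
        have := nA F₁
        linarith
    · have : A F₁ = 1 := by simp only [hA]; rw [if_neg c1]
      have := nA F₂
      linarith
  have e1 : ∀ F₂ ⊆ Eall s, (1:ℝ) ≤ ex q (Eall s) A + (A F₂ + (ex q (Eall s) (B1 F₂) +
      ex q (Eall s) (fun F₁ => B2 F₁ F₂))) := by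
    intro F₂ hF₂
    have := ex_mono h0 h1 (key F₂ hF₂)
    rw [ex_const, ex_add, ex_add, ex_const, ex_add] at this
    exact this
  have e2 := ex_mono h0 h1 e1
  rw [ex_const, ex_add, ex_const, ex_add, ex_add] at e2
  have m1 : ex q (Eall s) A ≤ 1 / 8 := ex_cnum_gt h0 h1 hD hD0
  have m2 : ex q (Eall s) (fun F₂ => ex q (Eall s) (B1 F₂)) ≤ 1 / 8 := by
    refine (ex_mono h0 h1 (g := fun _ => (1/8 : ℝ)) ?_).trans (le_of_eq (ex_const _ _ _))
    intro F₂ _
    exact ex_badFam_all hs hP hQ hM h0 h1 hq hfin F₂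
  have m3 : ex q (Eall s) (fun F₂ => ex q (Eall s) (fun F₁ => B2 F₁ F₂)) ≤ 1 / 8 := by
    rw [ex_comm]
    refine (ex_mono h0 h1 (g := fun _ => (1/8 : ℝ)) ?_).trans (le_of_eq (ex_const _ _ _))
    intro F₁ _
    exact ex_badFam_all hs hQ hP hM h0 h1 hq hfin F₁
  linarith

end families

end Pool.Agent.H.MP_4cad9a_co
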