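import Mathlib

/-!
First-difference levels on bit strings.
-/

set_option autoImplicit false

namespace Pool.Agent.H.MP_4cad9a_co

/-- the first coordinate where `x` and `y` differ -/
noncomputable def lev {s : ℕ} (x y : Fin s → Bool) : ℕ :=
  sInf {i : ℕ | ∃ h : i < s, x ⟨i, h⟩ ≠ y ⟨i, h⟩}

variable {s : ℕ}

theorem lev_comm (x y : Fin s → Bool) : lev x y = lev y x := by
  unfold lev
  congr 1
  ext i
  simp only [Set.mem_ofPred_eq]
  constructor <;> rintro ⟨h, h2⟩ <;> exact ⟨h, h2.symm⟩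

theorem lev_spec {x y : Fin s → Bool} (h : x ≠ y) :
    ∃ h : lev x y < s, x ⟨lev x y, h⟩ ≠ y ⟨lev x y, h⟩ := by
  have hne : {i : ℕ | ∃ h : i < s, x ⟨i, h⟩ ≠ y ⟨i, h⟩}.Nonempty := by
    obtain ⟨i, hi⟩ := Function.ne_iff.mp h
    exact ⟨i.1, i.2, hi⟩
  exact Nat.sInf_mem hne

theorem lev_lt {x y : Fin s → Bool} (h : x ≠ y) : lev x y < s := (lev_spec h).1

theorem eq_of_lt_lev {x y : Fin s → Bool} {i : ℕ} (hi : i < lev x y) (h : i < s) :
    x ⟨i, h⟩ = y ⟨i, h⟩ := by
  by_contra hne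
  exact Nat.notMem_of_lt_sInf hi ⟨h, hne⟩

theorem le_lev {x y : Fin s → Bool} (hxy : x ≠ y) {i : ℕ}
    (h : ∀ j (hj : j < s), j < i → x ⟨j, hj⟩ = y ⟨j, hj⟩) : i ≤ lev x y := by
  by_contra hlt
  push Not at hlt
  obtain ⟨h1, h2⟩ := lev_spec hxy
  exact h2 (h _ h1 hlt)

/-- a common level of `z` to `x` and `y` is smaller than the level of `x`, `y` -/
theorem lev_lt_of_eq {x y z : Fin s → Bool} (hxy : x ≠ y) (hxz : x ≠ z) (hyz : y ≠ z)
    (h : lev x z = lev y z) : lev x z < lev x y := by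
  obtain ⟨h1, h2⟩ := lev_spec hxz
  obtain ⟨h3, h4⟩ := lev_spec hyz
  have h5 : x ⟨lev x z, h1⟩ = y ⟨lev x z, h1⟩ := by
    have h4' : y ⟨lev x z, h1⟩ ≠ z ⟨lev x z, h1⟩ := by
      have : (⟨lev x z, h1⟩ : Fin s) = ⟨lev y z, h3⟩ := Fin.ext h
      rw [this]; exact h4
    cases hx : x ⟨lev x z, h1⟩ <;> cases hy : y ⟨lev x z, h1⟩ <;> cases hz : z ⟨lev x z, h1⟩ <;>
      simp_all
  have h6 : lev x z + 1 ≤ lev x y := by
    apply le_lev hxy
    intro j hj hlt
    rcases Nat.lt_succ_iff_lt_or_eq.mp hlt with h7 | h7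
    · have e1 := eq_of_lt_lev (x := x) (y := z) h7 hj
      have e2 := eq_of_lt_lev (x := y) (y := z) (i := j) (by rw [← h]; exact h7) hj
      rw [e1, e2]
    · subst h7; exact h5
  omega

/-- among three points, one has the same level to the other two -/
theorem lev_triple {x y z : Fin s → Bool} (hxy : x ≠ y) (hxz : x ≠ z) (hyz : y ≠ z) :
    lev x y = lev x z ∨ lev y x = lev y z ∨ lev z x = lev z y := by
  -- a strictly smallest level is impossible
  have key : ∀ {a b c : Fin s → Bool}, a ≠ b → a ≠ c → b ≠ c → lev a b < lev a c →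
      lev b a = lev b c := by
    intro a b c hab hac hbc hlt
    obtain ⟨h1, h2⟩ := lev_spec hab
    have e : a ⟨lev a b, h1⟩ = c ⟨lev a b, h1⟩ := eq_of_lt_lev hlt h1
    apply le_antisymm
    · rw [lev_comm b a]
      apply le_lev hbc
      intro j hj hlt2
      have e1 := eq_of_lt_lev (x := a) (y := b) hlt2 hj
      have e2 := eq_of_lt_lev (x := a) (y := c) (hlt2.trans hlt) hj
      rw [← e1, e2]
    · by_contra hgt
      push Not at hgt
      have h3 : b ⟨lev a b, h1⟩ = c ⟨lev a b, h1⟩ := by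
        apply eq_of_lt_lev _ h1
        rw [lev_comm a b]; exact hgt
      exact h2 (by rw [e, h3])
  rcases lt_trichotomy (lev x y) (lev x z) with h | h | h
  · right; left; exact key hxy hxz hyz h
  · left; exact h
  · right; right
    exact key hxz hxy hyz.symm h

end Pool.Agent.H.MP_4cad9a_co
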