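import Mathlib

/-!
Counting permutations that scramble fibres (job 46, for `MP_4cad9a_co`).
-/

namespace Pool.Agent.H.MP_4cad9a_co

open Finset

/-- The number of permutations with prescribed values on the range of an injective map. -/
theorem card_perm_prescribed_le {ι V : Type} [Fintype ι] [Fintype V] [DecidableEq V]
    (c d : ι → V) (hc : Function.Injective c) :
    (univ.filter fun π : Equiv.Perm V => ∀ i, π (c i) = d i).card
      ≤ (Fintype.card V - Fintype.card ι).factorial := by
  classical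
  by_cases hne : ∃ π₀ : Equiv.Perm V, ∀ i, π₀ (c i) = d i
  · obtain ⟨π₀, h₀⟩ := hne
    let p : V → Prop := fun x => x ∉ Set.range c
    have hcard : Fintype.card {x // p x} = Fintype.card V - Fintype.card ι := by
      have h1 : Fintype.card {x // x ∈ Set.range c} = Fintype.card ι :=
        Set.card_range_of_injective hc
      have h2 := Fintype.card_subtype_compl (fun x => x ∈ Set.range c)
      rw [← h1, ← h2]
    have hstab : Fintype.card {f : Equiv.Perm V // ∀ a, ¬ p a → f a = a}
        = (Fintype.card V - Fintype.card ι).factorial := by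
      rw [← hcard, ← Fintype.card_perm]
      exact (Fintype.card_congr (Equiv.Perm.subtypeEquivSubtypePerm p)).symm
    rw [← hstab, Fintype.card_subtype]
    refine Finset.card_le_card_of_injOn (fun π => π₀⁻¹ * π) ?_ ?_
    · intro π hπ
      have hπ' : ∀ i, π (c i) = d i := by simpa using hπ
      simp only [coe_filter, mem_univ, true_and, Set.mem_ofPred_eq]
      intro a ha
      have ha' : a ∈ Set.range c := not_not.mp ha
      obtain ⟨i, rfl⟩ := ha'
      rw [Equiv.Perm.mul_apply, hπ' i, ← h₀ i]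
      exact Equiv.symm_apply_apply π₀ (c i)
    · intro π _ π' _ hh
      exact mul_left_cancel hh
  · have : (univ.filter fun π : Equiv.Perm V => ∀ i, π (c i) = d i) = ∅ := by
      rw [Finset.filter_eq_empty_iff]
      intro π _ hπ
      exact hne ⟨π, hπ⟩
    rw [this]
    simp

/-- The pairs of sequences whose pairs of first coordinates lie in the range of `τ`. -/
theorem card_pairs_le {U : Type} [Fintype U] [DecidableEq U] (k m t : ℕ) (τ : Fin t → U × U) :
    (univ.filter fun ab : (Fin m → U × Fin k) × (Fin m → U × Fin k) =>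
        ∀ i, ((ab.1 i).1, (ab.2 i).1) ∈ Set.range τ).card ≤ (t * k ^ 2) ^ m := by
  classical
  have hcod : Fintype.card (Fin m → Fin t × (Fin k × Fin k)) = (t * k ^ 2) ^ m := by
    simp [Fintype.card_prod, pow_two]
  rw [← hcod, ← Finset.card_univ]
  let g : (Fin m → Fin t × (Fin k × Fin k)) → (Fin m → U × Fin k) × (Fin m → U × Fin k) :=
    fun f => (fun i => ((τ (f i).1).1, (f i).2.1), fun i => ((τ (f i).1).2, (f i).2.2))
  refine Finset.card_le_card_of_surjOn g ?_
  rintro ⟨a, b⟩ hab
  have hab' : ∀ i, ((a i).1, (b i).1) ∈ Set.range τ := by simpa using hab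
  choose j hj using hab'
  refine ⟨fun i => (j i, ((a i).2, (b i).2)), by simp, ?_⟩
  refine Prod.ext ?_ ?_
  · funext i
    simp [g, hj i]
  · funext i
    simp [g, hj i]

theorem exists_perm {U : Type} [Fintype U] [DecidableEq U] (k m t : ℕ)
    (h : Fintype.card U ^ (4 * t) * (t * k ^ 2) ^ (2 * m) *
        (Fintype.card U * k - 2 * m).factorial < m.factorial * (Fintype.card U * k).factorial) :
    ∃ π : Equiv.Perm (U × Fin k), ∀ a b : Fin m → U × Fin k, Function.Injective a →
      Function.Injective b → (∀ i j, a i ≠ b j) →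
      ∀ τ₁ τ₂ : Fin t → U × U, (∀ i, ((a i).1, (b i).1) ∈ Set.range τ₁) →
        ¬ ∀ i, ((π (a i)).1, (π (b i)).1) ∈ Set.range τ₂ := by
  classical
  by_contra hcon
  push Not at hcon
  choose a b ha hb hab τ₁ τ₂ h₁ h₂ using hcon
  -- the good sets
  let V := U × Fin k
  let S : (Fin t → U × U) → Finset ((Fin m → V) × (Fin m → V)) := fun τ =>
    univ.filter fun ab => ∀ i, ((ab.1 i).1, (ab.2 i).1) ∈ Set.range τ
  let W : Finset (((Fin t → U × U) × (Fin t → U × U)) × (Equiv.Perm V × ((Fin m → V) × (Fin m → V)))) :=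
    univ.filter fun w => Function.Injective w.2.2.1 ∧ Function.Injective w.2.2.2 ∧
      (∀ i j, w.2.2.1 i ≠ w.2.2.2 j) ∧ w.2.2 ∈ S w.1.1 ∧
      (w.2.1 ∘ w.2.2.1, w.2.1 ∘ w.2.2.2) ∈ S w.1.2
  have hlow : m.factorial * (Fintype.card U * k).factorial ≤ W.card := by
    have hdom : Fintype.card (Equiv.Perm (Fin m) × Equiv.Perm V)
        = m.factorial * (Fintype.card U * k).factorial := by
      rw [Fintype.card_prod, Fintype.card_perm, Fintype.card_perm, Fintype.card_prod,
        Fintype.card_fin, Fintype.card_fin]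
    rw [← hdom, ← Finset.card_univ]
    refine Finset.card_le_card_of_injOn
      (fun q => ((τ₁ q.2, τ₂ q.2), (q.2, (a q.2 ∘ q.1, b q.2 ∘ q.1)))) ?_ ?_
    · rintro ⟨σ, π⟩ _
      simp only [W, S, coe_filter, mem_univ, true_and, Set.mem_ofPred_eq, mem_filter]
      refine ⟨(ha π).comp σ.injective, (hb π).comp σ.injective, fun i j => hab π _ _,
        fun i => h₁ π (σ i), fun i => h₂ π (σ i)⟩
    · rintro ⟨σ, π⟩ _ ⟨σ', π'⟩ _ hh
      simp only [Prod.mk.injEq] at hh
      obtain ⟨-, hπ, hσ, -⟩ := hh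
      subst hπ
      refine Prod.ext ?_ rfl
      refine Equiv.ext fun i => ?_
      exact ha π (congrFun hσ i)
  have hcardτ : Fintype.card ((Fin t → U × U) × (Fin t → U × U)) = Fintype.card U ^ (4 * t) := by
    rw [Fintype.card_prod, Fintype.card_fun, Fintype.card_prod, Fintype.card_fin, ← pow_two,
      ← pow_two, ← pow_mul, ← pow_mul]
    congr 1
    ring
  have hup : W.card ≤ ((t * k ^ 2) ^ (2 * m) * (Fintype.card U * k - 2 * m).factorial) *
      Fintype.card U ^ (4 * t) := by
    rw [← hcardτ, ← Finset.card_univ]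
    refine Finset.card_le_mul_card_image_of_maps_to (f := fun w => w.1)
      (fun w _ => mem_univ _) _ ?_
    rintro ⟨s₁, s₂⟩ _
    have hS : ∀ s, (S s).card ≤ (t * k ^ 2) ^ m := fun s => card_pairs_le k m t s
    have hprod : ((S s₁) ×ˢ (S s₂)).card ≤ (t * k ^ 2) ^ (2 * m) := by
      rw [Finset.card_product, two_mul, pow_add]
      exact Nat.mul_le_mul (hS _) (hS _)
    refine le_trans ?_ (le_trans (Nat.mul_le_mul_left _ hprod) (le_of_eq (mul_comm _ _)))
    refine Finset.card_le_mul_card_image_of_maps_to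
      (f := fun w => (w.2.2, ((w.2.1 ∘ w.2.2.1, w.2.1 ∘ w.2.2.2) : (Fin m → V) × (Fin m → V))))
      ?_ _ ?_
    · rintro ⟨⟨r₁, r₂⟩, π, a', b'⟩ hw
      simp only [W, mem_filter, mem_univ, true_and, Prod.mk.injEq] at hw
      obtain ⟨⟨-, -, -, h4, h5⟩, rfl, rfl⟩ := hw
      exact Finset.mem_product.mpr ⟨h4, h5⟩
    · rintro ⟨⟨a₀, b₀⟩, ⟨c₀, d₀⟩⟩ _
      by_cases hinj : Function.Injective (Sum.elim a₀ b₀)
      · have hkey := card_perm_prescribed_le (Sum.elim a₀ b₀) (Sum.elim c₀ d₀) hinj
        have e1 : Fintype.card V - Fintype.card (Fin m ⊕ Fin m) = Fintype.card U * k - 2 * m := by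
          simp [V, two_mul]
        rw [e1] at hkey
        refine le_trans ?_ hkey
        refine Finset.card_le_card_of_injOn (fun w => w.2.1) ?_ ?_
        · rintro ⟨⟨r₁, r₂⟩, π, a', b'⟩ hw
          simp only [mem_coe, mem_filter, Prod.mk.injEq] at hw
          obtain ⟨-, ⟨rfl, rfl⟩, h6, h7⟩ := hw
          simp only [mem_coe, mem_filter, mem_univ, true_and]
          rintro (i | i)
          · exact congrFun h6 i
          · exact congrFun h7 i
        · rintro ⟨⟨r₁, r₂⟩, π, a', b'⟩ hw ⟨⟨r₁', r₂'⟩, π', a'', b''⟩ hw' hh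
          simp only [mem_coe, mem_filter, Prod.mk.injEq] at hw hw' hh
          obtain ⟨⟨-, h8, h9⟩, ⟨h10, h11⟩, -, -⟩ := hw
          obtain ⟨⟨-, h12, h13⟩, ⟨h14, h15⟩, -, -⟩ := hw'
          subst h8 h9 h10 h11 h12 h13 h14 h15 hh
          rfl
      · have : (filter (fun w : (((Fin t → U × U) × (Fin t → U × U)) ×
            (Equiv.Perm V × ((Fin m → V) × (Fin m → V)))) =>
            (w.2.2, ((w.2.1 ∘ w.2.2.1, w.2.1 ∘ w.2.2.2) : (Fin m → V) × (Fin m → V)))
              = ((a₀, b₀), (c₀, d₀))) (filter (fun w => w.1 = (s₁, s₂)) W)) = ∅ := by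
          rw [Finset.filter_eq_empty_iff]
          rintro ⟨⟨r₁, r₂⟩, π, a', b'⟩ hw hw2
          simp only [W, mem_filter, mem_univ, true_and, Prod.mk.injEq] at hw hw2
          obtain ⟨⟨i1, i2, i3, -, -⟩, -, -⟩ := hw
          obtain ⟨⟨rfl, rfl⟩, -, -⟩ := hw2
          exact hinj (i1.sumElim i2 i3)
        rw [this]
        simp
  have := lt_of_lt_of_le h (le_trans hlow hup)
  rw [mul_comm _ (Fintype.card U ^ (4 * t)), ← mul_assoc] at this
  exact lt_irrefl _ this

end Pool.Agent.H.MP_4cad9a_co
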