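import Mathlib

/-!
Random subsets of a finite set: product weights, and a Janson type bound for the probability that a
random set of vertices is independent in a graph.
-/

set_option autoImplicit false
set_option linter.unusedSectionVars false

namespace Pool.Agent.H.MP_4cad9a_co

open Finset

variable {ι : Type} [DecidableEq ι]

/-- the expectation of `f` over a `q`-random subset of `E` -/
noncomputable def ex (q : ℝ) (E : Finset ι) (f : Finset ι → ℝ) : ℝ :=
  ∑ A ∈ E.powerset, q ^ #A * (1 - q) ^ (#E - #A) * f A

theorem ex_empty (q : ℝ) (f : Finset ι → ℝ) : ex q ∅ f = f ∅ := by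
  simp [ex]

theorem ex_insert (q : ℝ) {E : Finset ι} {e : ι} (he : e ∉ E) (f : Finset ι → ℝ) :
    ex q (insert e E) f = (1 - q) * ex q E f + q * ex q E (fun A => f (insert e A)) := by
  unfold ex
  rw [sum_powerset_insert he, mul_sum, mul_sum]
  congr 1
  · apply sum_congr rfl
    intro A hA
    have hAE := card_le_card (mem_powerset.mp hA)
    rw [card_insert_of_notMem he]
    have : #E + 1 - #A = (#E - #A) + 1 := by omega
    rw [this, pow_succ]; ring
  · apply sum_congr rfl
    intro A hA
    have hAE := mem_powerset.mp hA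
    have heA : e ∉ A := fun h => he (hAE h)
    rw [card_insert_of_notMem he, card_insert_of_notMem heA]
    have : #E + 1 - (#A + 1) = #E - #A := by omega
    rw [this, pow_succ]; ring

theorem ex_const (q : ℝ) (E : Finset ι) (c : ℝ) : ex q E (fun _ => c) = c := by
  induction E using Finset.induction_on with
  | empty => rw [ex_empty]
  | insert e E he ih => rw [ex_insert q he, ih]; ring

theorem ex_mono {q : ℝ} (h0 : 0 ≤ q) (h1 : q ≤ 1) {E : Finset ι} {f g : Finset ι → ℝ}
    (h : ∀ A ⊆ E, f A ≤ g A) : ex q E f ≤ ex q E g := by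
  unfold ex
  apply sum_le_sum
  intro A hA
  apply mul_le_mul_of_nonneg_left (h A (mem_powerset.mp hA))
  have : 0 ≤ 1 - q := by linarith
  positivity

theorem ex_congr {q : ℝ} {E : Finset ι} {f g : Finset ι → ℝ}
    (h : ∀ A ⊆ E, f A = g A) : ex q E f = ex q E g := by
  unfold ex
  apply sum_congr rfl
  intro A hA
  rw [h A (mem_powerset.mp hA)]

theorem ex_nonneg {q : ℝ} (h0 : 0 ≤ q) (h1 : q ≤ 1) {E : Finset ι} {f : Finset ι → ℝ}
    (h : ∀ A ⊆ E, 0 ≤ f A) : 0 ≤ ex q E f := by
  have := ex_mono h0 h1 (f := fun _ => (0:ℝ)) (g := f) h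
  rwa [ex_const] at this

theorem ex_add (q : ℝ) (E : Finset ι) (f g : Finset ι → ℝ) :
    ex q E (fun A => f A + g A) = ex q E f + ex q E g := by
  unfold ex
  rw [← sum_add_distrib]
  apply sum_congr rfl
  intro A _; ring

theorem ex_mul_const (q : ℝ) (E : Finset ι) (f : Finset ι → ℝ) (c : ℝ) :
    ex q E (fun A => c * f A) = c * ex q E f := by
  unfold ex
  rw [mul_sum]
  apply sum_congr rfl
  intro A _; ring

theorem ex_sum {κ : Type} (q : ℝ) (E : Finset ι) (s : Finset κ) (f : κ → Finset ι → ℝ) :
    ex q E (fun A => ∑ i ∈ s, f i A) = ∑ i ∈ s, ex q E (f i) := by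
  unfold ex
  rw [sum_comm]
  apply sum_congr rfl
  intro A _
  rw [mul_sum]

theorem ex_split (q : ℝ) {E₀ E₁ : Finset ι} (hd : Disjoint E₀ E₁) (f : Finset ι → ℝ) :
    ex q (E₀ ∪ E₁) f = ex q E₀ (fun A₀ => ex q E₁ (fun A₁ => f (A₀ ∪ A₁))) := by
  induction E₀ using Finset.induction_on generalizing f with
  | empty => rw [ex_empty]; simp
  | insert e E he ih =>
    have h1 : Disjoint E E₁ := disjoint_of_subset_left (subset_insert _ _) hd
    have h2 : e ∉ E ∪ E₁ := by
      rw [mem_union]
      rintro (h | h)
      · exact he h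
      · exact (disjoint_left.mp hd (mem_insert_self _ _)) h
    rw [insert_union, ex_insert q h2, ex_insert q he, ih h1, ih h1]
    simp only [insert_union]

/-- probability that a given element is chosen -/
theorem ex_mem {q : ℝ} {E : Finset ι} {e : ι} (he : e ∈ E) :
    ex q E (fun A => if e ∈ A then (1:ℝ) else 0) = q := by
  rw [← insert_erase he, ex_insert q (notMem_erase e E)]
  have h1 : ex q (E.erase e) (fun A => if e ∈ A then (1:ℝ) else 0) = 0 := by
    rw [ex_congr (g := fun _ => 0)]
    · rw [ex_const]
    · intro A hA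
      have : e ∉ A := fun h => (notMem_erase e E) (hA h)
      simp [this]
  have h2 : ex q (E.erase e) (fun A => if e ∈ insert e A then (1:ℝ) else 0) = 1 := by
    rw [ex_congr (g := fun _ => 1)]
    · rw [ex_const]
    · intro A hA; simp
  rw [h1, h2]; ring

/-- probability that two given elements are chosen -/
theorem ex_mem_mem {q : ℝ} {E : Finset ι} {e e' : ι} (he : e ∈ E) (he' : e' ∈ E) (hne : e ≠ e') :
    ex q E (fun A => if e ∈ A ∧ e' ∈ A then (1:ℝ) else 0) = q ^ 2 := by
  rw [← insert_erase he, ex_insert q (notMem_erase e E)]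
  have h1 : ex q (E.erase e) (fun A => if e ∈ A ∧ e' ∈ A then (1:ℝ) else 0) = 0 := by
    rw [ex_congr (g := fun _ => 0)]
    · rw [ex_const]
    · intro A hA
      have : e ∉ A := fun h => (notMem_erase e E) (hA h)
      simp [this]
  have h2 : ex q (E.erase e) (fun A => if e ∈ insert e A ∧ e' ∈ insert e A then (1:ℝ) else 0) = q := by
    rw [ex_congr (g := fun A => if e' ∈ A then (1:ℝ) else 0)]
    · exact ex_mem (mem_erase.mpr ⟨hne.symm, he'⟩)
    · intro A hA; simp [hne.symm]
  rw [h1, h2]; ring

/-! ### the Janson type lemma -/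

theorem scalar_ineq {q : ℝ} {r D : ℕ} (h0 : 0 ≤ q) (h1 : q ≤ 1) (hr : r ≤ D)
    (hD : q * D ≤ 1 / 4) :
    (1 - q) * Real.exp (q ^ 2 / 16 * (2 * r)) +
      q * (1 - q) ^ r * Real.exp (q ^ 2 / 16 * (2 * r * D)) ≤ 1 := by
  have hqr : q * r ≤ 1 / 4 := by
    have : (r:ℝ) ≤ D := by exact_mod_cast hr
    nlinarith
  have hr0 : (0:ℝ) ≤ r := Nat.cast_nonneg r
  have hD0 : (0:ℝ) ≤ D := Nat.cast_nonneg D
  have hx : ∀ x : ℝ, 0 ≤ x → x ≤ 1 → Real.exp x ≤ 1 + 2 * x := by
    intro x hx0 hx1
    have h := Real.abs_exp_sub_one_le (x := x) (by rw [abs_of_nonneg hx0]; exact hx1)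
    rw [abs_of_nonneg hx0] at h
    have := (abs_le.mp h).2
    linarith
  have e1 : Real.exp (q ^ 2 / 16 * (2 * r)) ≤ 1 + q * (q * r) / 4 := by
    have := hx (q ^ 2 / 16 * (2 * r)) (by positivity) (by nlinarith)
    refine this.trans (le_of_eq (by ring))
  have e2 : Real.exp (q ^ 2 / 16 * (2 * r * D)) ≤ 1 + q * r / 16 := by
    have h3 : q ^ 2 / 16 * (2 * r * D) ≤ q * r / 32 := by
      have : q ^ 2 / 16 * (2 * r * D) = (q * r) * (q * D) / 8 := by ring
      rw [this]
      have : 0 ≤ q * r := by positivity
      nlinarith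
    have h4 := hx (q ^ 2 / 16 * (2 * r * D)) (by positivity) (by nlinarith [mul_nonneg h0 hr0])
    linarith
  have e3 : (1 - q) ^ r ≤ 1 - q * r / 2 := by
    have h5 : (1 - q) ^ r ≤ Real.exp (-(q * r)) := by
      have h6 : 1 - q ≤ Real.exp (-q) := Real.one_sub_le_exp_neg q
      calc (1 - q) ^ r ≤ (Real.exp (-q)) ^ r := pow_le_pow_left₀ (by linarith) h6 r
        _ = Real.exp (-(q * r)) := by rw [← Real.exp_nat_mul]; congr 1; ring
    have h7 : Real.exp (-(q * r)) ≤ 1 - q * r / 2 := by
      have h8 : 0 ≤ q * r := by positivity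
      have h9 := Real.abs_exp_sub_one_sub_id_le (x := -(q * r)) (by rw [abs_neg, abs_of_nonneg h8]; linarith)
      have h10 := (abs_le.mp h9).2
      nlinarith
    exact h5.trans h7
  have h11 : 0 ≤ q * r := by positivity
  have h12 : 0 ≤ (1 - q) ^ r := pow_nonneg (by linarith) r
  calc (1 - q) * Real.exp (q ^ 2 / 16 * (2 * r)) +
      q * (1 - q) ^ r * Real.exp (q ^ 2 / 16 * (2 * r * D))
      ≤ (1 - q) * (1 + q * (q * r) / 4) + q * (1 - q * r / 2) * (1 + q * r / 16) := by
        have a1 : (1 - q) * Real.exp (q ^ 2 / 16 * (2 * r)) ≤ (1 - q) * (1 + q * (q * r) / 4) :=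
          mul_le_mul_of_nonneg_left e1 (by linarith)
        have a2 : q * (1 - q) ^ r ≤ q * (1 - q * r / 2) := mul_le_mul_of_nonneg_left e3 h0
        have a3 : q * (1 - q) ^ r * Real.exp (q ^ 2 / 16 * (2 * r * D))
            ≤ q * (1 - q * r / 2) * (1 + q * r / 16) :=
          mul_le_mul a2 e2 (Real.exp_pos _).le (mul_nonneg h0 (by linarith))
        linarith
    _ ≤ 1 := by nlinarith [mul_nonneg h0 h11, mul_nonneg (mul_nonneg h0 h11) h0,
        mul_nonneg (mul_nonneg h0 h11) h11]

open Classical in
/-- ordered number of adjacent pairs inside `E` -/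
noncomputable def epairs (B : SimpleGraph ι) (E : Finset ι) : ℕ :=
  #((E ×ˢ E).filter (fun p => B.Adj p.1 p.2))

/-- independent sets of a graph -/
def Indep (B : SimpleGraph ι) (A : Finset ι) : Prop := ∀ x ∈ A, ∀ y ∈ A, ¬ B.Adj x y

open Classical in
theorem janson (B : SimpleGraph ι) {q : ℝ} (h0 : 0 ≤ q) (h1 : q ≤ 1) {D : ℕ}
    (hD : q * D ≤ 1 / 4) (E : Finset ι) (hdeg : ∀ e ∈ E, #(E.filter (fun e' => B.Adj e e')) ≤ D) :
    ex q E (fun A => if Indep B A then 1 else 0)
      ≤ Real.exp (-(q ^ 2 / 16 * epairs B E)) := by
  induction E using Finset.strongInduction with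
  | H E ih =>
    rcases E.eq_empty_or_nonempty with rfl | ⟨e, he⟩
    · rw [ex_empty]; simp [epairs, Indep]
    · set E' := E.erase e with hE'
      set R := E.filter (fun e' => B.Adj e e') with hR
      set E'' := E' \ R with hE''
      have hE'E : E' ⊂ E := erase_ssubset he
      have hE''E : E'' ⊂ E := lt_of_le_of_lt sdiff_subset hE'E
      have hReE : R ⊆ E' := by
        intro x hx
        rw [hR, mem_filter] at hx
        rw [hE', mem_erase]
        exact ⟨fun h => by subst h; exact B.loopless.irrefl _ hx.2, hx.1⟩
      have hsub1 : ∀ x ∈ E', #(E'.filter (fun e' => B.Adj x e')) ≤ D := fun x hx =>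
        (card_le_card (filter_subset_filter _ hE'E.subset)).trans (hdeg x (hE'E.subset hx))
      have hsub2 : ∀ x ∈ E'', #(E''.filter (fun e' => B.Adj x e')) ≤ D := fun x hx =>
        (card_le_card (filter_subset_filter _ hE''E.subset)).trans (hdeg x (hE''E.subset hx))
      have ih1 := ih E' hE'E hsub1
      have ih2 := ih E'' hE''E hsub2
      have hins : E = insert e E' := (insert_erase he).symm
      have heE' : e ∉ E' := notMem_erase e E
      -- the second term
      have hsecond : ex q E' (fun A => if Indep B (insert e A)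
            then (1:ℝ) else 0)
          = (1 - q) ^ #R * ex q E'' (fun A => if Indep B A then 1 else 0) := by
        have hun : E' = R ∪ E'' := by
          rw [hE'', union_sdiff_of_subset hReE]
        have hdis : Disjoint R E'' := disjoint_sdiff
        conv_lhs => rw [hun]
        rw [ex_split q hdis]
        -- only `A₀ = ∅` contributes
        have h3 : ∀ A₀ ⊆ R, ex q E'' (fun A₁ => if Indep B (insert e (A₀ ∪ A₁))
            then (1:ℝ) else 0)
            = if A₀ = ∅ then ex q E'' (fun A => if Indep B A then 1 else 0)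
              else 0 := by
          intro A₀ hA₀
          split_ifs with h4
          · subst h4
            apply ex_congr
            intro A hA
            have : Indep B (insert e (∅ ∪ A)) ↔ Indep B A := by
              unfold Indep
              rw [empty_union]
              constructor
              · intro h x hx y hy
                exact h x (mem_insert_of_mem hx) y (mem_insert_of_mem hy)
              · intro h x hx y hy
                have hnot : ∀ z ∈ A, ¬ B.Adj e z := by
                  intro z hz hadj
                  have hz2 := hA hz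
                  rw [hE'', mem_sdiff] at hz2
                  apply hz2.2
                  rw [hR, mem_filter]
                  exact ⟨hE'E.subset hz2.1, hadj⟩
                rcases mem_insert.mp hx with hx' | hx' <;> rcases mem_insert.mp hy with hy' | hy'
                · rw [hx', hy']; exact B.loopless.irrefl _
                · rw [hx']; exact hnot y hy'
                · rw [hy']; intro hadj; exact hnot x hx' hadj.symm
                · exact h x hx' y hy'
            simp only [this]
          · obtain ⟨z, hz⟩ := nonempty_iff_ne_empty.mpr h4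
            rw [ex_congr (g := fun _ => 0), ex_const]
            intro A hA
            rw [if_neg]
            intro h
            have hz2 := hA₀ hz
            rw [hR, mem_filter] at hz2
            exact h e (mem_insert_self _ _) z (mem_insert_of_mem (mem_union_left _ hz)) hz2.2
        rw [ex_congr h3]
        unfold ex
        rw [sum_eq_single ∅]
        · simp
        · intro A _ hA; simp [hA]
        · intro h; simp at h
      -- counting
      have hc1 : epairs B E = epairs B E' + 2 * #R := by
        unfold epairs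
        have hsplit : (E ×ˢ E).filter (fun p => B.Adj p.1 p.2)
            = (E' ×ˢ E').filter (fun p => B.Adj p.1 p.2) ∪
              (R.image (fun x => (e, x)) ∪ R.image (fun x => (x, e))) := by
          ext ⟨x, y⟩
          simp only [mem_filter, mem_product, mem_union, mem_image, Prod.mk.injEq]
          constructor
          · rintro ⟨⟨hx, hy⟩, hadj⟩
            by_cases hxe : x = e
            · right; left
              subst hxe
              exact ⟨y, by rw [hR, mem_filter]; exact ⟨hy, hadj⟩, rfl, rfl⟩
            · by_cases hye : y = e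
              · right; right
                subst hye
                exact ⟨x, by rw [hR, mem_filter]; exact ⟨hx, hadj.symm⟩, rfl, rfl⟩
              · left
                exact ⟨⟨mem_erase.mpr ⟨hxe, hx⟩, mem_erase.mpr ⟨hye, hy⟩⟩, hadj⟩
          · rintro (⟨⟨hx, hy⟩, hadj⟩ | ⟨z, hz, rfl, rfl⟩ | ⟨z, hz, rfl, rfl⟩)
            · exact ⟨⟨hE'E.subset hx, hE'E.subset hy⟩, hadj⟩
            · rw [hR, mem_filter] at hz
              exact ⟨⟨he, hz.1⟩, hz.2⟩
            · rw [hR, mem_filter] at hz
              exact ⟨⟨hz.1, he⟩, hz.2.symm⟩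
        rw [hsplit, card_union_of_disjoint, card_union_of_disjoint, card_image_of_injective,
          card_image_of_injective]
        · ring
        · intro x y h; simpa using h
        · intro x y h; simpa using h
        · rw [disjoint_left]
          intro p hp1 hp2
          simp only [mem_image] at hp1 hp2
          obtain ⟨x, hx, rfl⟩ := hp1
          obtain ⟨y, hy, h⟩ := hp2
          simp only [Prod.mk.injEq] at h
          have := hReE hx
          rw [← h.2] at this
          exact heE' this
        · rw [disjoint_left]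
          rintro ⟨x, y⟩ hp1 hp2
          simp only [mem_filter, mem_product] at hp1
          simp only [mem_union, mem_image, Prod.mk.injEq] at hp2
          rcases hp2 with ⟨z, hz, h1, h2⟩ | ⟨z, hz, h1, h2⟩
          · rw [← h1] at hp1; exact heE' hp1.1.1
          · rw [← h2] at hp1; exact heE' hp1.1.2
      have hc2 : epairs B E ≤ epairs B E'' + 2 * #R * D := by
        unfold epairs
        -- pairs not in `E''` have an endpoint in `R` or are `(e,x)`, `(x,e)` with `x ∈ R`
        have hsub : (E ×ˢ E).filter (fun p => B.Adj p.1 p.2)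
            ⊆ (E'' ×ˢ E'').filter (fun p => B.Adj p.1 p.2) ∪
              (R.biUnion (fun x => (E.filter (fun y => B.Adj x y)).image (fun y => (x, y))) ∪
               R.biUnion (fun x => (E.filter (fun y => B.Adj x y)).image (fun y => (y, x)))) := by
          rintro ⟨x, y⟩ hxy
          simp only [mem_filter, mem_product] at hxy
          obtain ⟨⟨hx, hy⟩, hadj⟩ := hxy
          simp only [mem_union, mem_biUnion, mem_image, mem_filter, mem_product, Prod.mk.injEq]
          by_cases hxR : x ∈ R
          · right; left
            exact ⟨x, hxR, y, ⟨hy, hadj⟩, rfl, rfl⟩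
          · by_cases hyR : y ∈ R
            · right; right
              exact ⟨y, hyR, x, ⟨hx, hadj.symm⟩, rfl, rfl⟩
            · left
              have hxe : x ≠ e := by
                rintro rfl
                exact hyR (by rw [hR, mem_filter]; exact ⟨hy, hadj⟩)
              have hye : y ≠ e := by
                rintro rfl
                exact hxR (by rw [hR, mem_filter]; exact ⟨hx, hadj.symm⟩)
              refine ⟨⟨?_, ?_⟩, hadj⟩
              · rw [hE'', mem_sdiff]; exact ⟨mem_erase.mpr ⟨hxe, hx⟩, hxR⟩
              · rw [hE'', mem_sdiff]; exact ⟨mem_erase.mpr ⟨hye, hy⟩, hyR⟩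
        refine (card_le_card hsub).trans ?_
        refine (card_union_le _ _).trans ?_
        have hR1 : #(R.biUnion (fun x => (E.filter (fun y => B.Adj x y)).image (fun y => (x, y))))
            ≤ #R * D := by
          apply card_biUnion_le_card_mul
          intro x hx
          exact card_image_le.trans (hdeg x (hE'E.subset (hReE hx)))
        have hR2 : #(R.biUnion (fun x => (E.filter (fun y => B.Adj x y)).image (fun y => (y, x))))
            ≤ #R * D := by
          apply card_biUnion_le_card_mul
          intro x hx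
          exact card_image_le.trans (hdeg x (hE'E.subset (hReE hx)))
        have := (card_union_le (R.biUnion (fun x => (E.filter (fun y => B.Adj x y)).image (fun y => (x, y))))
          (R.biUnion (fun x => (E.filter (fun y => B.Adj x y)).image (fun y => (y, x))))).trans
          (add_le_add hR1 hR2)
        have e : 2 * #R * D = #R * D + #R * D := by ring
        rw [e]
        exact Nat.add_le_add_left this _
      have hRD : #R ≤ D := hdeg e he
      conv_lhs => rw [hins]
      rw [ex_insert q heE', hsecond]
      have hsc := scalar_ineq h0 h1 hRD hD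
      set N : ℝ := (epairs B E : ℝ) with hN
      have hN1 : (epairs B E' : ℝ) = N - 2 * #R := by
        rw [hN, hc1]; push_cast; ring
      have hN2 : N - 2 * #R * D ≤ (epairs B E'' : ℝ) := by
        rw [hN]
        have : ((epairs B E : ℕ) : ℝ) ≤ ((epairs B E'' + 2 * #R * D : ℕ) : ℝ) := by
          exact_mod_cast hc2
        push_cast at this
        linarith
      have b1 : Real.exp (-(q ^ 2 / 16 * epairs B E')) =
          Real.exp (-(q ^ 2 / 16 * N)) * Real.exp (q ^ 2 / 16 * (2 * #R)) := by
        rw [← Real.exp_add, hN1]; congr 1; ring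
      have b2 : Real.exp (-(q ^ 2 / 16 * epairs B E'')) ≤
          Real.exp (-(q ^ 2 / 16 * N)) * Real.exp (q ^ 2 / 16 * (2 * #R * D)) := by
        rw [← Real.exp_add]
        apply Real.exp_le_exp.mpr
        have : 0 ≤ q ^ 2 / 16 := by positivity
        nlinarith
      have h1q : 0 ≤ 1 - q := by linarith
      have c1 : (1 - q) * ex q E' (fun A => if Indep B A then (1:ℝ) else 0)
          ≤ (1 - q) * (Real.exp (-(q ^ 2 / 16 * N)) * Real.exp (q ^ 2 / 16 * (2 * #R))) := by
        rw [← b1]; exact mul_le_mul_of_nonneg_left ih1 h1q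
      have c2 : q * ((1 - q) ^ #R * ex q E'' (fun A => if Indep B A then (1:ℝ) else 0))
          ≤ q * ((1 - q) ^ #R *
            (Real.exp (-(q ^ 2 / 16 * N)) * Real.exp (q ^ 2 / 16 * (2 * #R * D)))) := by
        apply mul_le_mul_of_nonneg_left _ h0
        exact mul_le_mul_of_nonneg_left (ih2.trans b2) (pow_nonneg h1q _)
      calc _ ≤ (1 - q) * (Real.exp (-(q ^ 2 / 16 * N)) * Real.exp (q ^ 2 / 16 * (2 * #R))) +
            q * ((1 - q) ^ #R *
            (Real.exp (-(q ^ 2 / 16 * N)) * Real.exp (q ^ 2 / 16 * (2 * #R * D)))) := add_le_add c1 c2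
        _ = Real.exp (-(q ^ 2 / 16 * N)) * ((1 - q) * Real.exp (q ^ 2 / 16 * (2 * #R)) +
            q * (1 - q) ^ #R * Real.exp (q ^ 2 / 16 * (2 * #R * D))) := by ring
        _ ≤ Real.exp (-(q ^ 2 / 16 * N)) * 1 := mul_le_mul_of_nonneg_left hsc (Real.exp_pos _).le
        _ = _ := mul_one _

end Pool.Agent.H.MP_4cad9a_co
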