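import Pool.Agent.H.MP_4cad9a_co.Graphs
import Pool.Agent.H.MP_4cad9a_co.Perm

/-!
The triangle-free graph with the pairing property.
-/

set_option autoImplicit false

namespace Pool.Agent.H.MP_4cad9a_co

open Finset

/-- the union of the two blown-up graphs -/
def Hg {s : ℕ} {V : Type} (F₁ F₂ : Finset (Sym2 (Fin s → Bool))) (h₁ : F₁ ⊆ Eall s)
    (h₂ : F₂ ⊆ Eall s) (P Q : V → Fin s → Bool) : SimpleGraph V where
  Adj a b := (Fp F₁ (P a) (P b) ∧ ¬ codeg F₂ (Q a) (Q b)) ∨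
    (Fp F₂ (Q a) (Q b) ∧ ¬ codeg F₁ (P a) (P b))
  symm := ⟨fun a b h => by
    rcases h with ⟨h3, h4⟩ | ⟨h3, h4⟩
    · left; exact ⟨Fp_symm h3, fun h => h4 (codeg_comm.mp h)⟩
    · right; exact ⟨Fp_symm h3, fun h => h4 (codeg_comm.mp h)⟩⟩
  loopless := ⟨fun a h => by
    rcases h with ⟨h3, h4⟩ | ⟨h3, h4⟩
    · exact mem_Eall.mp (h₁ h3.1) rfl
    · exact mem_Eall.mp (h₂ h3.1) rfl⟩

theorem Hg_cliqueFree {s : ℕ} {V : Type} {F₁ F₂ : Finset (Sym2 (Fin s → Bool))} (h₁ : F₁ ⊆ Eall s)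
    (h₂ : F₂ ⊆ Eall s) (P Q : V → Fin s → Bool) : (Hg F₁ F₂ h₁ h₂ P Q).CliqueFree 3 := by
  classical
  intro S hS
  obtain ⟨a, b, c, hab, hac, hbc, -⟩ := SimpleGraph.is3Clique_iff.mp hS
  have sw : ∀ {F : Finset (Sym2 (Fin s → Bool))} {x y : Fin s → Bool}, s(x, y) ∈ F → s(y, x) ∈ F := by
    intro F x y h; rw [Sym2.eq_swap]; exact h
  rcases hab with ⟨a1, a2⟩ | ⟨a1, a2⟩ <;> rcases hac with ⟨b1, b2⟩ | ⟨b1, b2⟩ <;>
    rcases hbc with ⟨c1, c2⟩ | ⟨c1, c2⟩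
  · exact Fp_tri h₁ a1 b1 c1
  · exact c2 ⟨P a, sw a1.1, sw b1.1⟩
  · exact b2 ⟨P b, a1.1, sw c1.1⟩
  · exact a2 ⟨Q c, b1.1, c1.1⟩
  · exact a2 ⟨P c, b1.1, c1.1⟩
  · exact b2 ⟨Q b, a1.1, sw c1.1⟩
  · exact c2 ⟨Q a, sw a1.1, sw b1.1⟩
  · exact Fp_tri h₂ a1 b1 c1

theorem few_or_many {s m t : ℕ} (_ht : 0 < t) (typ : Fin m → (Fin s → Bool) × (Fin s → Bool)) :
    (∃ f : Fin t → Fin m, Function.Injective (fun i => typ (f i))) ∨
      ∃ τ : Fin t → (Fin s → Bool) × (Fin s → Bool), ∀ i, typ i ∈ Set.range τ := by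
  classical
  set T : Finset ((Fin s → Bool) × (Fin s → Bool)) := univ.image typ with hT
  by_cases hc : t ≤ #T
  · left
    obtain ⟨S, hS, hSc⟩ := exists_subset_card_eq hc
    have e : Fin t ≃ S := (Fintype.equivFinOfCardEq (by simpa using hSc)).symm
    have hch : ∀ i : Fin t, ∃ j : Fin m, typ j = (e i : (Fin s → Bool) × (Fin s → Bool)) := by
      intro i
      have := hS (e i).2
      rw [hT, mem_image] at this
      obtain ⟨j, -, hj⟩ := this
      exact ⟨j, hj⟩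
    choose f hf using hch
    refine ⟨f, ?_⟩
    intro i j hij
    simp only [hf] at hij
    exact e.injective (Subtype.ext hij)
  · right
    push Not at hc
    have e : T ≃ Fin (#T) := T.equivFin
    refine ⟨fun j => if h : j.1 < #T then (e.symm ⟨j.1, h⟩ : (Fin s → Bool) × (Fin s → Bool))
      else (fun _ => false, fun _ => false), ?_⟩
    intro i
    have hi : typ i ∈ T := by rw [hT]; exact mem_image_of_mem _ (mem_univ _)
    refine ⟨⟨(e ⟨typ i, hi⟩).1, lt_trans (e ⟨typ i, hi⟩).2 hc⟩, ?_⟩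
    simp

theorem propB {s k m t : ℕ} (ht : 0 < t) (π : Equiv.Perm ((Fin s → Bool) × Fin k))
    (hπ : ∀ a b : Fin m → (Fin s → Bool) × Fin k, Function.Injective a →
      Function.Injective b → (∀ i j, a i ≠ b j) →
      ∀ τ₁ τ₂ : Fin t → (Fin s → Bool) × (Fin s → Bool),
        (∀ i, ((a i).1, (b i).1) ∈ Set.range τ₁) →
        ¬ ∀ i, ((π (a i)).1, (π (b i)).1) ∈ Set.range τ₂)
    {F₁ F₂ : Finset (Sym2 (Fin s → Bool))} (h₁ : F₁ ⊆ Eall s) (h₂ : F₂ ⊆ Eall s)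
    (hb1 : ∀ a b : Fin t → (Fin s → Bool) × Fin k,
      ¬ BadFam F₁ F₂ (fun v => v.1) (fun v => (π v).1) a b)
    (hb2 : ∀ a b : Fin t → (Fin s → Bool) × Fin k,
      ¬ BadFam F₂ F₁ (fun v => (π v).1) (fun v => v.1) a b)
    (a b : Fin m → (Fin s → Bool) × Fin k) (ha : Function.Injective a) (hb : Function.Injective b)
    (hab : ∀ i j, a i ≠ b j) :
    ∃ i j, (Hg F₁ F₂ h₁ h₂ (fun v : (Fin s → Bool) × Fin k => v.1) (fun v => (π v).1)).Adj (a i) (a j)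
      ∧ (Hg F₁ F₂ h₁ h₂ (fun v : (Fin s → Bool) × Fin k => v.1) (fun v => (π v).1)).Adj (b i) (b j) := by
  rcases few_or_many ht (fun i => ((a i).1, (b i).1)) with ⟨f, hf⟩ | ⟨τ₁, hτ₁⟩
  · have hfi : Function.Injective f := fun i j hij => hf (by simp only [hij])
    have := hb1 (fun i => a (f i)) (fun i => b (f i))
    unfold BadFam at this
    push Not at this
    obtain ⟨i, j, hc⟩ := this (ha.comp hfi) (hb.comp hfi) hf
    exact ⟨f i, f j, Or.inl hc.1, Or.inl hc.2⟩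
  · rcases few_or_many ht (fun i => ((π (a i)).1, (π (b i)).1)) with ⟨f, hf⟩ | ⟨τ₂, hτ₂⟩
    · have hfi : Function.Injective f := fun i j hij => hf (by simp only [hij])
      have := hb2 (fun i => a (f i)) (fun i => b (f i))
      unfold BadFam at this
      push Not at this
      obtain ⟨i, j, hc⟩ := this (ha.comp hfi) (hb.comp hfi) hf
      exact ⟨f i, f j, Or.inr hc.1, Or.inr hc.2⟩
    · exact absurd hτ₂ (hπ a b ha hb hab τ₁ τ₂ hτ₁)

open Classical in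
theorem fiber_fst {s k : ℕ} (u : Fin s → Bool) :
    #((univ : Finset ((Fin s → Bool) × Fin k)).filter (fun v => v.1 = u)) ≤ k := by
  have h : (univ : Finset ((Fin s → Bool) × Fin k)).filter (fun v => v.1 = u) ⊆
      (univ : Finset (Fin k)).image (fun r => (u, r)) := by
    rintro ⟨x, r⟩ hx
    rw [mem_filter] at hx
    rw [mem_image]
    exact ⟨r, mem_univ _, by rw [← hx.2]⟩
  refine (card_le_card h).trans (card_image_le.trans ?_)
  rw [card_univ, Fintype.card_fin]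

open Classical in
theorem fiber_perm {s k : ℕ} (π : Equiv.Perm ((Fin s → Bool) × Fin k)) (u : Fin s → Bool) :
    #((univ : Finset ((Fin s → Bool) × Fin k)).filter (fun v => (π v).1 = u)) ≤ k := by
  refine le_trans ?_ (fiber_fst (k := k) u)
  apply card_le_card_of_injOn π
  · intro v hv
    rw [mem_coe, mem_filter] at hv ⊢
    exact ⟨mem_univ _, hv.2⟩
  · exact π.injective.injOn

/-- everything together, with the numerical conditions as hypotheses -/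
theorem exists_H {s k m t D₀ M : ℕ} (hs : 0 < s) (ht : 0 < t) (hD0 : 0 < D₀)
    (hperm : (2 ^ s) ^ (4 * t) * (t * k ^ 2) ^ (2 * m) * (2 ^ s * k - 2 * m).factorial <
      m.factorial * (2 ^ s * k).factorial)
    (hM : ∀ I J : ℕ, t ≤ 2 ^ s + 2 * s * I → I * I ≤ s ^ 2 * J + 2 * (k * k * D₀) + 2 * k * I →
      4 * M + 2 * (k * k) * D₀ ≤ J)
    {q : ℝ} (h0 : 0 ≤ q) (h1 : q ≤ 1) (hq : q * (4 * (k * k) : ℕ) ≤ 1 / 4)
    (hD : 8 * ((2 ^ s : ℝ) ^ 3 * q ^ 2 + (2 ^ s : ℝ) ^ 2 * q) ≤ D₀)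
    (hfin : (((2 ^ s * k : ℕ) : ℝ) ^ t) ^ 2 * Real.exp (-(q ^ 2 / 16 * M)) ≤ 1 / 8) :
    ∃ H : SimpleGraph ((Fin s → Bool) × Fin k), H.CliqueFree 3 ∧
      ∀ a b : Fin m → (Fin s → Bool) × Fin k, Function.Injective a → Function.Injective b →
        (∀ i j, a i ≠ b j) → ∃ i j, H.Adj (a i) (a j) ∧ H.Adj (b i) (b j) := by
  classical
  have hcard : Fintype.card (Fin s → Bool) = 2 ^ s := by simp
  have hcardV : Fintype.card ((Fin s → Bool) × Fin k) = 2 ^ s * k := by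
    rw [Fintype.card_prod, hcard, Fintype.card_fin]
  obtain ⟨π, hπ⟩ := exists_perm (U := Fin s → Bool) k m t (by rw [hcard]; exact hperm)
  obtain ⟨F₁, F₂, hF₁, hF₂, hb1, hb2⟩ := exists_graphs (t := t) (k := k) (D₀ := D₀) (M := M) hs
    (P := fun v : (Fin s → Bool) × Fin k => v.1) (Q := fun v => (π v).1)
    (fun u => fiber_fst u) (fun u => fiber_perm π u) hD0 hM h0 h1 hq hD
    (by rw [hcardV]; exact hfin)
  exact ⟨Hg F₁ F₂ hF₁ hF₂ _ _, Hg_cliqueFree hF₁ hF₂ _ _, fun a b ha hb hab =>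
    propB ht π hπ hF₁ hF₂ hb1 hb2 a b ha hb hab⟩

end Pool.Agent.H.MP_4cad9a_co
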