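import Pool.Agent.H.MP_4cad9a_co.Levels
import Pool.Agent.H.MP_4cad9a_co.Prob

/-!
The random graph on bit strings, deletion of edges, and the spreading lemma.
-/

set_option autoImplicit false

namespace Pool.Agent.H.MP_4cad9a_co

open Finset

/-- the surviving edges of `F`: those without a common neighbour at the same level -/
def Fp {s : ℕ} (F : Finset (Sym2 (Fin s → Bool))) (x y : Fin s → Bool) : Prop :=
  s(x, y) ∈ F ∧ ¬ ∃ z, s(x, z) ∈ F ∧ s(y, z) ∈ F ∧ lev x z = lev y z

/-- `x` and `y` have a common neighbour -/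
def codeg {s : ℕ} (F : Finset (Sym2 (Fin s → Bool))) (x y : Fin s → Bool) : Prop :=
  ∃ z, s(x, z) ∈ F ∧ s(y, z) ∈ F

open Classical in
/-- the number of ordered pairs with a common neighbour -/
noncomputable def cnum {s : ℕ} (F : Finset (Sym2 (Fin s → Bool))) : ℕ :=
  #((univ : Finset ((Fin s → Bool) × (Fin s → Bool))).filter (fun p => codeg F p.1 p.2))

open Classical in
/-- all pairs of distinct bit strings -/
noncomputable def Eall (s : ℕ) : Finset (Sym2 (Fin s → Bool)) :=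
  univ.filter (fun e => ¬ e.IsDiag)

theorem mem_Eall {s : ℕ} {x y : Fin s → Bool} : s(x, y) ∈ Eall s ↔ x ≠ y := by
  simp [Eall]

theorem codeg_comm {s : ℕ} {F : Finset (Sym2 (Fin s → Bool))} {x y : Fin s → Bool} :
    codeg F x y ↔ codeg F y x := by
  constructor <;> rintro ⟨z, h1, h2⟩ <;> exact ⟨z, h2, h1⟩

theorem cnum_mono {s : ℕ} {F G : Finset (Sym2 (Fin s → Bool))} (h : F ⊆ G) : cnum F ≤ cnum G := by
  classical
  unfold cnum
  apply card_le_card
  intro p hp
  rw [mem_filter] at hp ⊢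
  obtain ⟨h1, z, h2, h3⟩ := hp
  exact ⟨h1, z, h h2, h h3⟩

theorem Fp_symm {s : ℕ} {F : Finset (Sym2 (Fin s → Bool))} {x y : Fin s → Bool} (h : Fp F x y) :
    Fp F y x := by
  refine ⟨by rw [Sym2.eq_swap]; exact h.1, ?_⟩
  rintro ⟨z, h1, h2, h3⟩
  exact h.2 ⟨z, h2, h1, h3.symm⟩

/-- `Fp` has no triangles -/
theorem Fp_tri {s : ℕ} {F : Finset (Sym2 (Fin s → Bool))} (hF : F ⊆ Eall s) {x y z : Fin s → Bool}
    (h1 : Fp F x y) (h2 : Fp F x z) (h3 : Fp F y z) : False := by
  have hxy : x ≠ y := mem_Eall.mp (hF h1.1)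
  have hxz : x ≠ z := mem_Eall.mp (hF h2.1)
  have hyz : y ≠ z := mem_Eall.mp (hF h3.1)
  rcases lev_triple hxy hxz hyz with h | h | h
  · -- `x` kills `yz`
    apply h3.2
    refine ⟨x, (Fp_symm h1).1, (Fp_symm h2).1, ?_⟩
    rw [lev_comm y x, lev_comm z x]; exact h
  · -- `y` kills `xz`
    apply h2.2
    refine ⟨y, h1.1, (Fp_symm h3).1, ?_⟩
    rw [lev_comm x y, lev_comm z y]; exact h
  · -- `z` kills `xy`
    apply h1.2
    refine ⟨z, h2.1, h3.1, ?_⟩
    rw [lev_comm x z, lev_comm y z]; exact h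

/-- killed pairs -/
def killed {s : ℕ} (F : Finset (Sym2 (Fin s → Bool))) (e : Sym2 (Fin s → Bool)) : Prop :=
  ∃ u v z, e = s(u, v) ∧ s(u, z) ∈ F ∧ s(v, z) ∈ F ∧ lev u z = lev v z

theorem Fp_of_not_killed {s : ℕ} {F : Finset (Sym2 (Fin s → Bool))} {x y : Fin s → Bool}
    (h : s(x, y) ∈ F) (hk : ¬ killed F s(x, y)) : Fp F x y := by
  refine ⟨h, ?_⟩
  rintro ⟨z, h1, h2, h3⟩
  exact hk ⟨x, y, z, rfl, h1, h2, h3⟩

theorem codeg_of_killed {s : ℕ} {F : Finset (Sym2 (Fin s → Bool))} {x y : Fin s → Bool}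
    (hk : killed F s(x, y)) : codeg F x y := by
  obtain ⟨u, v, z, h0, h1, h2, -⟩ := hk
  rcases Sym2.eq_iff.mp h0 with ⟨rfl, rfl⟩ | ⟨rfl, rfl⟩
  · exact ⟨z, h1, h2⟩
  · exact ⟨z, h2, h1⟩

open Classical in
/-- the edges exposed last -/
noncomputable def S1 {s : ℕ} (b : Fin s) (c : Bool) (α β : ℕ) : Finset (Sym2 (Fin s → Bool)) :=
  (Eall s).filter (fun e => ∃ u v, e = s(u, v) ∧
    ((u b = c ∧ v b = c ∧ lev u v = α) ∨ (u b ≠ c ∧ v b ≠ c ∧ lev u v = β)))

theorem mem_S1 {s : ℕ} {b : Fin s} {c : Bool} {α β : ℕ} {u v : Fin s → Bool} :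
    s(u, v) ∈ S1 b c α β ↔ u ≠ v ∧
      ((u b = c ∧ v b = c ∧ lev u v = α) ∨ (u b ≠ c ∧ v b ≠ c ∧ lev u v = β)) := by
  unfold S1
  rw [mem_filter, mem_Eall]
  constructor
  · rintro ⟨h, u', v', he, h2⟩
    refine ⟨h, ?_⟩
    rcases Sym2.eq_iff.mp he with ⟨rfl, rfl⟩ | ⟨rfl, rfl⟩
    · exact h2
    · rcases h2 with ⟨a1, a2, a3⟩ | ⟨a1, a2, a3⟩
      · left; exact ⟨a2, a1, by rw [lev_comm]; exact a3⟩
      · right; exact ⟨a2, a1, by rw [lev_comm]; exact a3⟩
  · rintro ⟨h, h2⟩
    exact ⟨h, u, v, rfl, h2⟩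

theorem S1_subset {s : ℕ} {b : Fin s} {c : Bool} {α β : ℕ} : S1 b c α β ⊆ Eall s :=
  filter_subset _ _

/-- the killing of an edge of `S1` does not depend on `S1` -/
theorem killed_local {s : ℕ} {b : Fin s} {c : Bool} {α β : ℕ}
    {F : Finset (Sym2 (Fin s → Bool))} (hF : F ⊆ Eall s) {e : Sym2 (Fin s → Bool)}
    (he : e ∈ S1 b c α β) (hk : killed F e) : killed (F \ S1 b c α β) e := by
  obtain ⟨u, v, z, rfl, h1, h2, h3⟩ := hk
  have huz : u ≠ z := mem_Eall.mp (hF h1)
  have hvz : v ≠ z := mem_Eall.mp (hF h2)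
  obtain ⟨huv, hcase⟩ := mem_S1.mp he
  have hlt := lev_lt_of_eq huv huz hvz h3
  refine ⟨u, v, z, rfl, ?_, ?_, h3⟩
  · rw [mem_sdiff]
    refine ⟨h1, fun hS => ?_⟩
    obtain ⟨-, hS2⟩ := mem_S1.mp hS
    rcases hS2 with ⟨a1, a2, a3⟩ | ⟨a1, a2, a3⟩ <;> rcases hcase with ⟨b1, b2, b3⟩ | ⟨b1, b2, b3⟩
    · omega
    · exact b1 a1
    · exact a1 b1
    · omega
  · rw [mem_sdiff]
    refine ⟨h2, fun hS => ?_⟩
    obtain ⟨-, hS2⟩ := mem_S1.mp hS
    rcases hS2 with ⟨a1, a2, a3⟩ | ⟨a1, a2, a3⟩ <;> rcases hcase with ⟨b1, b2, b3⟩ | ⟨b1, b2, b3⟩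
    · omega
    · exact b2 a1
    · exact a1 b2
    · omega

/-- the conflict graph -/
def Bg {s t : ℕ} (x y : Fin t → Fin s → Bool) (J : Finset (Fin t × Fin t))
    (F₀ : Finset (Sym2 (Fin s → Bool))) : SimpleGraph (Sym2 (Fin s → Bool)) where
  Adj e e' := e ≠ e' ∧ ¬ killed F₀ e ∧ ¬ killed F₀ e' ∧ ∃ p ∈ J,
    (e = s(x p.1, x p.2) ∧ e' = s(y p.1, y p.2)) ∨ (e' = s(x p.1, x p.2) ∧ e = s(y p.1, y p.2))
  symm := ⟨fun e e' h => by
    obtain ⟨h1, h2, h3, p, hp, h4⟩ := h
    exact ⟨h1.symm, h3, h2, p, hp, h4.symm⟩⟩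
  loopless := ⟨fun e h => h.1 rfl⟩

section count

variable {s t k : ℕ} {x y : Fin t → Fin s → Bool}

open Classical in
theorem card_fiber (hx : ∀ u, #(univ.filter (fun i => x i = u)) ≤ k) (J : Finset (Fin t × Fin t))
    (u v : Fin s → Bool) : #(J.filter (fun p => x p.1 = u ∧ x p.2 = v)) ≤ k * k := by
  have h1 : J.filter (fun p => x p.1 = u ∧ x p.2 = v) ⊆
      (univ.filter (fun i => x i = u)) ×ˢ (univ.filter (fun i => x i = v)) := by
    intro p hp
    rw [mem_filter] at hp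
    rw [mem_product, mem_filter, mem_filter]
    exact ⟨⟨mem_univ _, hp.2.1⟩, ⟨mem_univ _, hp.2.2⟩⟩
  refine (card_le_card h1).trans ?_
  rw [card_product]
  exact Nat.mul_le_mul (hx u) (hx v)

open Classical in
theorem card_fiber' (hx : ∀ u, #(univ.filter (fun i => x i = u)) ≤ k) (J : Finset (Fin t × Fin t))
    (e : Sym2 (Fin s → Bool)) : #(J.filter (fun p => s(x p.1, x p.2) = e)) ≤ 2 * (k * k) := by
  induction e using Sym2.ind with
  | _ u v =>
    have h1 : J.filter (fun p => s(x p.1, x p.2) = s(u, v)) ⊆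
        J.filter (fun p => x p.1 = u ∧ x p.2 = v) ∪ J.filter (fun p => x p.1 = v ∧ x p.2 = u) := by
      intro p hp
      rw [mem_filter] at hp
      rw [mem_union, mem_filter, mem_filter]
      rcases Sym2.eq_iff.mp hp.2 with h | h
      · left; exact ⟨hp.1, h⟩
      · right; exact ⟨hp.1, h⟩
    refine (card_le_card h1).trans ((card_union_le _ _).trans ?_)
    have := card_fiber hx J u v
    have := card_fiber hx J v u
    omega

open Classical in
theorem degree_bound (hx : ∀ u, #(univ.filter (fun i => x i = u)) ≤ k)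
    (hy : ∀ u, #(univ.filter (fun i => y i = u)) ≤ k) (J : Finset (Fin t × Fin t))
    (F₀ E : Finset (Sym2 (Fin s → Bool))) (e : Sym2 (Fin s → Bool)) :
    #(E.filter (fun e' => (Bg x y J F₀).Adj e e')) ≤ 4 * (k * k) := by
  have h1 : E.filter (fun e' => (Bg x y J F₀).Adj e e') ⊆
      (J.filter (fun p => s(x p.1, x p.2) = e)).image (fun p => s(y p.1, y p.2)) ∪
      (J.filter (fun p => s(y p.1, y p.2) = e)).image (fun p => s(x p.1, x p.2)) := by
    intro e' he'
    rw [mem_filter] at he'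
    obtain ⟨-, -, -, -, p, hp, h | h⟩ := he'
    · rw [mem_union]; left
      rw [mem_image]
      exact ⟨p, by rw [mem_filter]; exact ⟨hp, h.1.symm⟩, h.2.symm⟩
    · rw [mem_union]; right
      rw [mem_image]
      exact ⟨p, by rw [mem_filter]; exact ⟨hp, h.2.symm⟩, h.1.symm⟩
  refine (card_le_card h1).trans ((card_union_le _ _).trans ?_)
  have a1 := card_image_le (s := J.filter (fun p => s(x p.1, x p.2) = e))
    (f := fun p => s(y p.1, y p.2))
  have a2 := card_image_le (s := J.filter (fun p => s(y p.1, y p.2) = e))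
    (f := fun p => s(x p.1, x p.2))
  have a3 := card_fiber' hx J e
  have a4 := card_fiber' hy J e
  omega

open Classical in
theorem card_killed (hx : ∀ u, #(univ.filter (fun i => x i = u)) ≤ k) (J : Finset (Fin t × Fin t))
    (F₀ : Finset (Sym2 (Fin s → Bool))) :
    #(J.filter (fun p => killed F₀ s(x p.1, x p.2))) ≤ k * k * cnum F₀ := by
  have h1 : ∀ p ∈ J.filter (fun p => killed F₀ s(x p.1, x p.2)), (x p.1, x p.2) ∈
      (univ : Finset ((Fin s → Bool) × (Fin s → Bool))).filter (fun p => codeg F₀ p.1 p.2) := by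
    intro p hp
    rw [mem_filter] at hp ⊢
    exact ⟨mem_univ _, codeg_of_killed hp.2⟩
  refine card_le_mul_card_image_of_maps_to h1 (k * k) ?_
  intro q _
  refine le_trans (card_le_card ?_) (card_fiber hx J q.1 q.2)
  intro p hp
  rw [mem_filter, mem_filter] at hp
  rw [mem_filter]
  refine ⟨hp.1.1, ?_⟩
  have := hp.2
  rw [← this]; exact ⟨rfl, rfl⟩

open Classical in
theorem epairs_lower (hinj : Function.Injective (fun i => (x i, y i)))
    {b : Fin s} {c : Bool} {α β : ℕ} {J : Finset (Fin t × Fin t)}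
    (hJ : ∀ p ∈ J, x p.1 b = c ∧ x p.2 b = c ∧ y p.1 b ≠ c ∧ y p.2 b ≠ c ∧ x p.1 ≠ x p.2 ∧
      y p.1 ≠ y p.2 ∧ lev (x p.1) (x p.2) = α ∧ lev (y p.1) (y p.2) = β)
    (F₀ : Finset (Sym2 (Fin s → Bool))) :
    #(J.filter (fun p => ¬ killed F₀ s(x p.1, x p.2) ∧ ¬ killed F₀ s(y p.1, y p.2)))
      ≤ 4 * epairs (Bg x y J F₀) (S1 b c α β) := by
  unfold epairs
  have h1 : ∀ p ∈ J.filter (fun p => ¬ killed F₀ s(x p.1, x p.2) ∧ ¬ killed F₀ s(y p.1, y p.2)),
      (s(x p.1, x p.2), s(y p.1, y p.2)) ∈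
      ((S1 b c α β) ×ˢ (S1 b c α β)).filter (fun q => (Bg x y J F₀).Adj q.1 q.2) := by
    intro p hp
    rw [mem_filter] at hp
    obtain ⟨a1, a2, a3, a4, a5, a6, a7, a8⟩ := hJ p hp.1
    rw [mem_filter, mem_product]
    refine ⟨⟨?_, ?_⟩, ?_, hp.2.1, hp.2.2, p, hp.1, Or.inl ⟨rfl, rfl⟩⟩
    · exact mem_S1.mpr ⟨a5, Or.inl ⟨a1, a2, a7⟩⟩
    · exact mem_S1.mpr ⟨a6, Or.inr ⟨a3, a4, a8⟩⟩
    · intro h
      rcases Sym2.eq_iff.mp h with ⟨h1, h2⟩ | ⟨h1, h2⟩
      · rw [h1] at a1; exact a3 a1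
      · rw [h1] at a1; exact a4 a1
  refine card_le_mul_card_image_of_maps_to h1 4 ?_
  rintro ⟨e, e'⟩ _
  induction e using Sym2.ind with
  | _ u v =>
    induction e' using Sym2.ind with
    | _ w z =>
      -- four possibilities, each determines `p`
      have key : ∀ u v w z : Fin s → Bool, #(univ.filter (fun p : Fin t × Fin t =>
          x p.1 = u ∧ x p.2 = v ∧ y p.1 = w ∧ y p.2 = z)) ≤ 1 := by
        intro u v w z
        rw [card_le_one]
        intro p hp p' hp'
        rw [mem_filter] at hp hp'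
        apply Prod.ext
        · apply hinj
          simp only [Prod.mk.injEq]
          exact ⟨by rw [hp.2.1, hp'.2.1], by rw [hp.2.2.2.1, hp'.2.2.2.1]⟩
        · apply hinj
          simp only [Prod.mk.injEq]
          exact ⟨by rw [hp.2.2.1, hp'.2.2.1], by rw [hp.2.2.2.2, hp'.2.2.2.2]⟩
      have hsub : (J.filter (fun p => ¬ killed F₀ s(x p.1, x p.2) ∧
          ¬ killed F₀ s(y p.1, y p.2))).filter
          (fun p => (s(x p.1, x p.2), s(y p.1, y p.2)) = (s(u, v), s(w, z))) ⊆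
          (univ.filter (fun p : Fin t × Fin t => x p.1 = u ∧ x p.2 = v ∧ y p.1 = w ∧ y p.2 = z) ∪
          univ.filter (fun p : Fin t × Fin t => x p.1 = u ∧ x p.2 = v ∧ y p.1 = z ∧ y p.2 = w)) ∪
          (univ.filter (fun p : Fin t × Fin t => x p.1 = v ∧ x p.2 = u ∧ y p.1 = w ∧ y p.2 = z) ∪
          univ.filter (fun p : Fin t × Fin t => x p.1 = v ∧ x p.2 = u ∧ y p.1 = z ∧ y p.2 = w)) := by
        intro p hp
        rw [mem_filter] at hp
        have h2 := hp.2
        rw [Prod.mk.injEq] at h2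
        simp only [mem_union, mem_filter, mem_univ, true_and]
        rcases Sym2.eq_iff.mp h2.1 with ⟨a1, a2⟩ | ⟨a1, a2⟩ <;>
          rcases Sym2.eq_iff.mp h2.2 with ⟨a3, a4⟩ | ⟨a3, a4⟩
        · left; left; exact ⟨a1, a2, a3, a4⟩
        · left; right; exact ⟨a1, a2, a3, a4⟩
        · right; left; exact ⟨a1, a2, a3, a4⟩
        · right; right; exact ⟨a1, a2, a3, a4⟩
      refine (card_le_card hsub).trans ((card_union_le _ _).trans ?_)
      have b1 := (card_union_le (univ.filter (fun p : Fin t × Fin t => x p.1 = u ∧ x p.2 = v ∧ y p.1 = w ∧ y p.2 = z))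
        (univ.filter (fun p : Fin t × Fin t => x p.1 = u ∧ x p.2 = v ∧ y p.1 = z ∧ y p.2 = w)))
      have b2 := (card_union_le (univ.filter (fun p : Fin t × Fin t => x p.1 = v ∧ x p.2 = u ∧ y p.1 = w ∧ y p.2 = z))
        (univ.filter (fun p : Fin t × Fin t => x p.1 = v ∧ x p.2 = u ∧ y p.1 = z ∧ y p.2 = w)))
      have := key u v w z
      have := key u v z w
      have := key v u w z
      have := key v u z w
      omega

open Classical in
/-- choice of the sides and levels -/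
theorem choose_levels (hs : 0 < s) (hinj : Function.Injective (fun i => (x i, y i)))
    (hx : ∀ u, #(univ.filter (fun i => x i = u)) ≤ k)
    (hy : ∀ u, #(univ.filter (fun i => y i = u)) ≤ k)
    (P : Finset (Fin t × Fin t)) {δ : ℕ} (hδ : t * t ≤ #P + δ) :
    ∃ (b : Fin s) (c : Bool) (α β : ℕ) (J : Finset (Fin t × Fin t)) (I : ℕ),
      J ⊆ P ∧ (∀ p ∈ J, x p.1 b = c ∧ x p.2 b = c ∧ y p.1 b ≠ c ∧ y p.2 b ≠ c ∧ x p.1 ≠ x p.2 ∧
      y p.1 ≠ y p.2 ∧ lev (x p.1) (x p.2) = α ∧ lev (y p.1) (y p.2) = β) ∧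
      t ≤ 2 ^ s + 2 * s * I ∧ I * I ≤ s ^ 2 * #J + δ + 2 * k * I := by
  have : Nonempty (Fin s) := ⟨⟨0, hs⟩⟩
  -- the sides
  set Ibc : Fin s × Bool → Finset (Fin t) := fun q =>
    univ.filter (fun i => x i q.1 = q.2 ∧ y i q.1 ≠ q.2) with hIbc
  obtain ⟨⟨b, c⟩, -, hmax⟩ := exists_max_image (univ : Finset (Fin s × Bool)) (fun q => #(Ibc q))
    univ_nonempty
  set I := Ibc (b, c) with hI
  have hT0 : t ≤ 2 ^ s + 2 * s * #I := by
    have h1 : (univ : Finset (Fin t)) ⊆ univ.filter (fun i => x i = y i) ∪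
        (univ : Finset (Fin s × Bool)).biUnion Ibc := by
      intro i _
      rw [mem_union]
      by_cases h : x i = y i
      · left; rw [mem_filter]; exact ⟨mem_univ _, h⟩
      · right
        obtain ⟨j, hj⟩ := Function.ne_iff.mp h
        rw [mem_biUnion]
        refine ⟨(j, x i j), mem_univ _, ?_⟩
        rw [hIbc]
        simp only [mem_filter, mem_univ, true_and]
        exact fun h => hj h.symm
    have h2 := (card_le_card h1).trans (card_union_le _ _)
    have h3 : #(univ.filter (fun i => x i = y i)) ≤ 2 ^ s := by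
      have h4 : #(univ.filter (fun i => x i = y i)) ≤ #(univ : Finset (Fin s → Bool)) := by
        apply card_le_card_of_injOn x (fun _ _ => mem_univ _)
        intro i hi j hj hij
        rw [mem_coe, mem_filter] at hi hj
        apply hinj
        simp only [Prod.mk.injEq]
        exact ⟨hij, by rw [← hi.2, ← hj.2, hij]⟩
      have h5 : #(univ : Finset (Fin s → Bool)) = 2 ^ s := by
        rw [card_univ]; simp
      omega
    have h4 : #((univ : Finset (Fin s × Bool)).biUnion Ibc) ≤ #(univ : Finset (Fin s × Bool)) * #I :=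
      card_biUnion_le_card_mul _ _ _ (fun q hq => hmax q hq)
    have h5 : #(univ : Finset (Fin s × Bool)) = s * 2 := by
      rw [card_univ]; simp
    rw [h5] at h4
    rw [card_univ, Fintype.card_fin] at h2
    have e : s * 2 * #I = 2 * s * #I := by ring
    rw [e] at h4
    omega
  -- good pairs
  set J' := (I ×ˢ I).filter (fun p => p ∈ P ∧ x p.1 ≠ x p.2 ∧ y p.1 ≠ y p.2) with hJ'
  have hcount : #I * #I ≤ #J' + δ + 2 * k * #I := by
    have h1 : I ×ˢ I ⊆ J' ∪ (Pᶜ ∪ (I.biUnion (fun i => (univ.filter (fun j => x j = x i)).image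
        (fun j => (i, j))) ∪ I.biUnion (fun i => (univ.filter (fun j => y j = y i)).image
        (fun j => (i, j))))) := by
      rintro ⟨i, j⟩ hp
      have hp2 := mem_product.mp hp
      simp only [mem_union, mem_biUnion, mem_image, mem_filter, mem_univ, true_and, mem_compl,
        Prod.mk.injEq]
      by_cases c1 : (i, j) ∈ P
      · by_cases c2 : x i = x j
        · right; right; left; exact ⟨i, hp2.1, j, c2.symm, rfl, rfl⟩
        · by_cases c3 : y i = y j
          · right; right; right; exact ⟨i, hp2.1, j, c3.symm, rfl, rfl⟩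
          · left
            rw [hJ', mem_filter]
            exact ⟨hp, c1, c2, c3⟩
      · right; left; exact c1
    have h2 := (card_le_card h1).trans (card_union_le _ _)
    have h3 := card_union_le (Pᶜ) (I.biUnion (fun i => (univ.filter (fun j => x j = x i)).image
        (fun j => (i, j))) ∪ I.biUnion (fun i => (univ.filter (fun j => y j = y i)).image
        (fun j => (i, j))))
    have h4 := card_union_le (I.biUnion (fun i => (univ.filter (fun j => x j = x i)).image
        (fun j => (i, j)))) (I.biUnion (fun i => (univ.filter (fun j => y j = y i)).image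
        (fun j => (i, j))))
    have h5 : #(I.biUnion (fun i => (univ.filter (fun j => x j = x i)).image (fun j => (i, j))))
        ≤ #I * k := card_biUnion_le_card_mul _ _ _ (fun i _ => card_image_le.trans (hx _))
    have h6 : #(I.biUnion (fun i => (univ.filter (fun j => y j = y i)).image (fun j => (i, j))))
        ≤ #I * k := card_biUnion_le_card_mul _ _ _ (fun i _ => card_image_le.trans (hy _))
    have h7 : #Pᶜ ≤ δ := by
      rw [card_compl]
      have : Fintype.card (Fin t × Fin t) = t * t := by simp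
      rw [this]; omega
    rw [card_product] at h2
    have e : 2 * k * #I = #I * k + #I * k := by ring
    rw [e]
    omega
  -- the levels
  set Jab : Fin s × Fin s → Finset (Fin t × Fin t) := fun q =>
    J'.filter (fun p => lev (x p.1) (x p.2) = q.1 ∧ lev (y p.1) (y p.2) = q.2) with hJab
  obtain ⟨⟨α, β⟩, -, hmax2⟩ := exists_max_image (univ : Finset (Fin s × Fin s))
    (fun q => #(Jab q)) univ_nonempty
  have hlev : #J' ≤ s ^ 2 * #(Jab (α, β)) := by
    have h1 : J' ⊆ (univ : Finset (Fin s × Fin s)).biUnion Jab := by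
      intro p hp
      have hp2 := hp
      rw [hJ', mem_filter] at hp2
      rw [mem_biUnion]
      refine ⟨(⟨lev (x p.1) (x p.2), lev_lt hp2.2.2.1⟩, ⟨lev (y p.1) (y p.2), lev_lt hp2.2.2.2⟩),
        mem_univ _, ?_⟩
      rw [hJab]
      simp only [mem_filter]
      exact ⟨hp, by first | rfl | trivial, by first | rfl | trivial⟩
    refine (card_le_card h1).trans ?_
    have h2 := card_biUnion_le_card_mul (univ : Finset (Fin s × Fin s)) Jab _
      (fun q hq => hmax2 q hq)
    refine h2.trans (le_of_eq ?_)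
    rw [card_univ, Fintype.card_prod, Fintype.card_fin]; ring
  refine ⟨b, c, α, β, Jab (α, β), #I, ?_, ?_, hT0, ?_⟩
  · intro p hp
    rw [hJab] at hp
    simp only [mem_filter] at hp
    have := hp.1
    rw [hJ', mem_filter] at this
    exact this.2.1
  · intro p hp
    rw [hJab] at hp
    simp only [mem_filter] at hp
    have h1 := hp.1
    rw [hJ', mem_filter, mem_product, hI, hIbc] at h1
    simp only [mem_filter, mem_univ, true_and] at h1
    exact ⟨h1.1.1.1, h1.1.2.1, h1.1.1.2, h1.1.2.2, h1.2.2.1, h1.2.2.2, hp.2.1, hp.2.2⟩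
  · omega

end count

open Classical in
/-- **spreading lemma** -/
theorem spread {s t k δ D₀ M : ℕ} (hs : 0 < s) (x y : Fin t → Fin s → Bool)
    (hinj : Function.Injective (fun i => (x i, y i)))
    (hx : ∀ u, #(univ.filter (fun i => x i = u)) ≤ k)
    (hy : ∀ u, #(univ.filter (fun i => y i = u)) ≤ k)
    (P : Finset (Fin t × Fin t)) (hδ : t * t ≤ #P + δ)
    (hM : ∀ I J : ℕ, t ≤ 2 ^ s + 2 * s * I → I * I ≤ s ^ 2 * J + δ + 2 * k * I →
      4 * M + 2 * (k * k) * D₀ ≤ J)
    {q : ℝ} (h0 : 0 ≤ q) (h1 : q ≤ 1) (hq : q * (4 * (k * k) : ℕ) ≤ 1 / 4) :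
    ex q (Eall s) (fun F => if cnum F ≤ D₀ ∧ ∀ p ∈ P, ¬ (Fp F (x p.1) (x p.2) ∧
      Fp F (y p.1) (y p.2)) then 1 else 0) ≤ Real.exp (-(q ^ 2 / 16 * M)) := by
  obtain ⟨b, c, α, β, J, I, hJP, hJ, hI1, hI2⟩ := choose_levels hs hinj hx hy P hδ
  have hMJ := hM I #J hI1 hI2
  have hE : Eall s = (Eall s \ S1 b c α β) ∪ S1 b c α β := by
    rw [sdiff_union_of_subset S1_subset]
  rw [hE, ex_split q sdiff_disjoint]
  have hmain : ∀ F₀ ⊆ Eall s \ S1 b c α β,
      ex q (S1 b c α β) (fun F₁ => if cnum (F₀ ∪ F₁) ≤ D₀ ∧ ∀ p ∈ P, ¬ (Fp (F₀ ∪ F₁) (x p.1) (x p.2) ∧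
      Fp (F₀ ∪ F₁) (y p.1) (y p.2)) then (1:ℝ) else 0) ≤ Real.exp (-(q ^ 2 / 16 * M)) := by
    intro F₀ hF₀
    by_cases hc : cnum F₀ ≤ D₀
    · -- compare with independence in the conflict graph
      have hstep : ex q (S1 b c α β) (fun F₁ => if cnum (F₀ ∪ F₁) ≤ D₀ ∧ ∀ p ∈ P,
          ¬ (Fp (F₀ ∪ F₁) (x p.1) (x p.2) ∧ Fp (F₀ ∪ F₁) (y p.1) (y p.2)) then (1:ℝ) else 0) ≤
          ex q (S1 b c α β) (fun A => if Indep (Bg x y J F₀) A then 1 else 0) := by
        apply ex_mono h0 h1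
        intro F₁ hF₁
        by_cases hbad : cnum (F₀ ∪ F₁) ≤ D₀ ∧ ∀ p ∈ P,
          ¬ (Fp (F₀ ∪ F₁) (x p.1) (x p.2) ∧ Fp (F₀ ∪ F₁) (y p.1) (y p.2))
        · rw [if_pos hbad, if_pos]
          intro e he e' he' hadj
          obtain ⟨-, hk1, hk2, p, hp, hcase⟩ := hadj
          have hFE : F₀ ∪ F₁ ⊆ Eall s :=
            union_subset (hF₀.trans sdiff_subset) (hF₁.trans S1_subset)
          have hsd : (F₀ ∪ F₁) \ S1 b c α β = F₀ := by
            ext z
            simp only [mem_sdiff, mem_union]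
            constructor
            · rintro ⟨h2 | h2, h3⟩
              · exact h2
              · exact absurd (hF₁ h2) h3
            · intro h2
              exact ⟨Or.inl h2, (mem_sdiff.mp (hF₀ h2)).2⟩
          have hnk : ∀ e ∈ F₁, ¬ killed F₀ e → ¬ killed (F₀ ∪ F₁) e := by
            intro e he hk hk'
            apply hk
            have := killed_local hFE (hF₁ he) hk'
            rwa [hsd] at this
          have hn1 := hnk e he hk1
          have hn2 := hnk e' he' hk2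
          apply hbad.2 p (hJP hp)
          rcases hcase with ⟨rfl, rfl⟩ | ⟨rfl, rfl⟩
          · exact ⟨Fp_of_not_killed (mem_union_right _ he) hn1,
              Fp_of_not_killed (mem_union_right _ he') hn2⟩
          · exact ⟨Fp_of_not_killed (mem_union_right _ he') hn2,
              Fp_of_not_killed (mem_union_right _ he) hn1⟩
        · rw [if_neg hbad]
          split_ifs <;> norm_num
      refine hstep.trans ?_
      refine (janson (Bg x y J F₀) h0 h1 hq (S1 b c α β)
        (fun e _ => degree_bound hx hy J F₀ _ e)).trans ?_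
      apply Real.exp_le_exp.mpr
      have hcnt : M ≤ epairs (Bg x y J F₀) (S1 b c α β) := by
        have g1 := epairs_lower hinj hJ F₀
        have g2 := card_killed hx J F₀
        have g3 := card_killed hy J F₀
        have g4 : J ⊆ J.filter (fun p => ¬ killed F₀ s(x p.1, x p.2) ∧
            ¬ killed F₀ s(y p.1, y p.2)) ∪ (J.filter (fun p => killed F₀ s(x p.1, x p.2)) ∪
            J.filter (fun p => killed F₀ s(y p.1, y p.2))) := by
          intro p hp
          simp only [mem_union, mem_filter]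
          tauto
        have g5 := (card_le_card g4).trans (card_union_le _ _)
        have g6 := card_union_le (J.filter (fun p => killed F₀ s(x p.1, x p.2)))
            (J.filter (fun p => killed F₀ s(y p.1, y p.2)))
        have g7 : k * k * cnum F₀ ≤ k * k * D₀ := Nat.mul_le_mul_left _ hc
        have g8 : 2 * (k * k) * D₀ = k * k * D₀ + k * k * D₀ := by ring
        rw [g8] at hMJ
        omega
      have : (M : ℝ) ≤ epairs (Bg x y J F₀) (S1 b c α β) := by exact_mod_cast hcnt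
      have hq2 : 0 ≤ q ^ 2 / 16 := by positivity
      nlinarith
    · rw [ex_congr (g := fun _ => 0), ex_const]
      · exact (Real.exp_pos _).le
      · intro F₁ _
        rw [if_neg]
        rintro ⟨h2, -⟩
        exact hc ((cnum_mono subset_union_left).trans h2)
  calc _ ≤ ex q (Eall s \ S1 b c α β) (fun _ => Real.exp (-(q ^ 2 / 16 * M))) :=
        ex_mono h0 h1 hmain
    _ = _ := ex_const _ _ _

end Pool.Agent.H.MP_4cad9a_co
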